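import Mathlib

/-!
# Star networks with three counters: the finite search

Abstract configurations are triples of numbers `< 16`; a set of them is coded by a natural number
(the bit `256 a + 16 b + c` stands for `(a, b, c)`).

A state of the search describes what can be reached after a prefix of a star word, up to an
identification of positions: `0` is the centre, the numbers of `F` are the finished leaves (those
which are not touched any more), the numbers of `V` are the live leaves which have been touched
twice (or are the leaves `1, 2`), and the numbers of `E` are epochs: all the leaves which were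
touched for the first time (and will be touched again) between two consecutive full letters have
the same number.
-/

set_option autoImplicit false

namespace ReachNet.Ex

/-- All bits. -/
def full : ℕ := 2 ^ 4096 - 1

/-- The multiples of `16`. -/
def base2 : ℕ := (2 ^ 4096 - 1) / (2 ^ 16 - 1)

/-- The numbers with remainder less than `16` modulo `256`. -/
def base1 : ℕ := (2 ^ 16 - 1) * ((2 ^ 4096 - 1) / (2 ^ 256 - 1))

/-- The triples whose `j`-th entry is `x`. -/
def mask (j x : ℕ) : ℕ :=
  match j with
  | 0 => (2 ^ 256 - 1) <<< (256 * x)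
  | 1 => base1 <<< (16 * x)
  | _ => base2 <<< x

/-- The weight of the `j`-th entry. -/
def wt (j : ℕ) : ℕ :=
  match j with
  | 0 => 256
  | 1 => 16
  | _ => 1

/-- The triples of `R` whose `j`-th entry is `p`, with this entry replaced by `q`. -/
def mv (j R p q : ℕ) : ℕ := ((R &&& mask j p) >>> (wt j * p)) <<< (wt j * q)

/-- The triples without the entry `p`. -/
def nomask (p : ℕ) : ℕ := full ^^^ (mask 0 p ||| (mask 1 p ||| mask 2 p))

/-- Replace the entry `p` by `q`. -/
def ren (R p q : ℕ) : ℕ := (R &&& nomask p) ||| (mv 0 R p q ||| (mv 1 R p q ||| mv 2 R p q))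

/-- States of the search. -/
structure St where
  R : ℕ
  k : ℕ
  E : List ℕ
  V : List ℕ
  F : List ℕ
  e : ℕ
  m : ℕ

/-- Evaluate a natural number (a trick for the kernel). -/
def force {α : Type} (n : ℕ) (f : ℕ → α) : α :=
  match n with
  | 0 => f 0
  | m + 1 => f (m + 1)

theorem force_eq {α : Type} (n : ℕ) (f : ℕ → α) : force n f = f n := by
  cases n <;> rfl

/-- Add the new epoch `e`. -/
def clo (R e : ℕ) : ℕ := R ||| ren R 0 e

/-- A leaf is touched for the first and last time. -/
def slot (S : St) : St :=
  { R := S.R ||| ren S.R 0 S.k, k := S.k + 1, E := S.E, V := S.V, F := S.k :: S.F, e := S.e,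
    m := S.m }

/-- The leaf `p` of `V` is touched. -/
def tV (S : St) (p : ℕ) (fin : Bool) : St :=
  { R := clo (S.R ||| ren (ren (ren S.R 0 S.k) p 0) S.k p) S.k, k := S.k + 1, E := S.k :: S.E,
    V := if fin then S.V.filter (fun v => v != p) else S.V, F := if fin then p :: S.F else S.F,
    e := S.k, m := S.m + 1 }

/-- A leaf of the epoch `p` is touched; its new number is `q`. -/
def tE1 (R W p q : ℕ) : ℕ :=
  R ||| (W ||| ((mv 0 R p q ||| (mv 1 R p q ||| mv 2 R p q)) |||
    (mv 0 W p 0 ||| (mv 1 W p 0 ||| mv 2 W p 0))))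

/-- A leaf of the epoch `p` is touched. -/
def tE (S : St) (p : ℕ) (fin : Bool) : St :=
  { R := clo (tE1 S.R (ren S.R 0 S.k) p S.k) (S.k + 1), k := S.k + 2, E := (S.k + 1) :: S.E,
    V := if fin then S.V else S.k :: S.V, F := if fin then S.k :: S.F else S.F, e := S.k + 1,
    m := S.m + 1 }

/-- The triples whose `j`-th entry is in `F`. -/
def inF (j : ℕ) (F : List ℕ) : ℕ := F.foldr (fun p acc => mask j p ||| acc) 0

/-- The triples whose `j`-th entry is not in `F`. -/
def out (j : ℕ) (F : List ℕ) : ℕ := full ^^^ inF j F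

/-- Some pattern is missing. -/
def bad (Nmin : ℕ) (S : St) : Bool :=
  (S.F.any fun x => S.F.any fun y => (x != y) && (
      (S.R &&& mask 0 x &&& mask 1 y &&& out 2 S.F == 0) ||
      (S.R &&& mask 0 x &&& out 1 S.F &&& mask 2 y == 0) ||
      (S.R &&& out 0 S.F &&& mask 1 x &&& mask 2 y == 0) ||
      (S.F.any fun z => (x != z) && (y != z) && (S.R &&& mask 0 x &&& mask 1 y &&& mask 2 z == 0))))
  || (decide (S.F.length + 2 ≤ Nmin) && S.F.any fun x =>
      (S.R &&& mask 0 x &&& out 1 S.F &&& out 2 S.F == 0) ||
      (S.R &&& out 0 S.F &&& mask 1 x &&& out 2 S.F == 0) ||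
      (S.R &&& out 0 S.F &&& out 1 S.F &&& mask 2 x == 0))

/-- The word cannot end here. -/
def finalOK (Nmin : ℕ) (S : St) : Bool :=
  !(S.V.isEmpty) || decide (S.F.length + 1 < Nmin) ||
    ((0 :: S.F).any fun x => (0 :: S.F).any fun y => (0 :: S.F).any fun z =>
      (x != y) && (x != z) && (y != z) && !(S.R.testBit (256 * x + 16 * y + z)))

/-- The word is long already. -/
def ovb (B : ℕ) (S : St) : Bool := decide (B + 1 + 2 * S.F.length ≤ 3 * S.m)

/-- The search. -/
def search (B Nmin : ℕ) : ℕ → St → Bool
  | 0, _ => false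
  | fuel + 1, S => ovb B S || force S.R fun r =>
    bad Nmin { S with R := r } || (decide (S.k ≤ 15) && finalOK Nmin { S with R := r } &&
      search B Nmin fuel (slot { S with R := r }) &&
      (decide (B + 1 + 2 * (S.F.length + 1) ≤ 3 * (S.m + 1)) || (decide (S.k ≤ 14) &&
        (S.V.all fun p => search B Nmin fuel (tV { S with R := r } p true) &&
          search B Nmin fuel (tV { S with R := r } p false)) &&
        (S.E.all fun p => search B Nmin fuel (tE { S with R := r } p true) &&
          search B Nmin fuel (tE { S with R := r } p false)))))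

theorem search_succ {B Nmin fuel : ℕ} {S : St} (h : search B Nmin (fuel + 1) S = true) :
    ovb B S = true ∨ bad Nmin S = true ∨ (S.k ≤ 15 ∧ finalOK Nmin S = true ∧
      search B Nmin fuel (slot S) = true ∧
      (B + 1 + 2 * (S.F.length + 1) ≤ 3 * (S.m + 1) ∨ (S.k ≤ 14 ∧
        (∀ p ∈ S.V, ∀ b : Bool, search B Nmin fuel (tV S p b) = true) ∧
        (∀ p ∈ S.E, ∀ b : Bool, search B Nmin fuel (tE S p b) = true)))) := by
  unfold search at h
  rw [force_eq] at h
  simp only [Bool.or_eq_true, Bool.and_eq_true, decide_eq_true_eq, List.all_eq_true] at h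
  rcases h with h | h | ⟨⟨⟨h1, h2⟩, h3⟩, h4⟩
  · exact Or.inl h
  · exact Or.inr (Or.inl h)
  · refine Or.inr (Or.inr ⟨h1, h2, h3, ?_⟩)
    rcases h4 with h4 | ⟨⟨h4, h5⟩, h6⟩
    · exact Or.inl h4
    · refine Or.inr ⟨h4, fun p hp b => ?_, fun p hp b => ?_⟩
      · cases b
        · exact (h5 p hp).2
        · exact (h5 p hp).1
      · cases b
        · exact (h6 p hp).2
        · exact (h6 p hp).1

/-- The initial state. -/
def start : St :=
  { R := 2 ^ 18 ||| 2 ^ (768 + 18), k := 4, E := [3], V := [1, 2], F := [], e := 3, m := 0 }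

end ReachNet.Ex
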