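import Pool.Agent.Lib.MP_720f8f_co.Defs
import Pool.Agent.Lib.MP_720f8f_co.Exact.Mach

section

/-!
# Star networks with three counters: the potential of a suffix
-/

set_option autoImplicit false

namespace ReachNet.Ex

variable {n : ℕ}

/-- Every placement can be reached from a configuration in `C`. -/
def Net3 (C : Set (Fin 3 → Fin n)) (L : List (Fin n × Fin n)) : Prop :=
  ∀ x : Fin 3 → Fin n, Function.Injective x → ∃ f ∈ C, Reach L f x

/-- The configurations after the letter `T`. -/
def nx (C : Set (Fin 3 → Fin n)) (T : Fin n × Fin n) : Set (Fin 3 → Fin n) :=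
  {g | ∃ f ∈ C, g = f ∨ g = fun i => Equiv.swap T.1 T.2 (f i)}

theorem Net3.tail {C : Set (Fin 3 → Fin n)} {T : Fin n × Fin n} {L : List (Fin n × Fin n)}
    (h : Net3 C (T :: L)) : Net3 (nx C T) L := by
  intro x hx
  obtain ⟨f, hf, M, hM, hm⟩ := h x hx
  rcases List.sublist_cons_iff.1 hM with h' | ⟨M', rfl, h'⟩
  · exact ⟨f, ⟨f, hf, Or.inl rfl⟩, M, h', hm⟩
  · refine ⟨fun i => Equiv.swap T.1 T.2 (f i), ⟨f, hf, Or.inr rfl⟩, M', h', fun i => ?_⟩
    rw [← hm i]
    rfl

/-- The leaves which are touched by `L`. -/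
def tch (L : List (Fin n × Fin n)) : Finset (Fin n) := (L.map Prod.snd).toFinset

/-- The number of letters of `L` whose leaf was touched before (`D`: the leaves which were touched
before `L`). -/
def ful (D : Finset (Fin n)) : List (Fin n × Fin n) → ℕ
  | [] => 0
  | T :: L => (if T.2 ∈ D then 1 else 0) + ful (insert T.2 D) L

theorem ful_cons (D : Finset (Fin n)) (T : Fin n × Fin n) (L : List (Fin n × Fin n)) :
    ful D (T :: L) = (if T.2 ∈ D then 1 else 0) + ful (insert T.2 D) L := rfl

@[simp] theorem tch_nil : tch ([] : List (Fin n × Fin n)) = ∅ := rfl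

@[simp] theorem tch_cons (T : Fin n × Fin n) (L : List (Fin n × Fin n)) :
    tch (T :: L) = insert T.2 (tch L) := by
  unfold tch
  rw [List.map_cons, List.toFinset_cons]

theorem mem_tch {L : List (Fin n × Fin n)} {a : Fin n} : a ∈ tch L ↔ ∃ T ∈ L, T.2 = a := by
  unfold tch
  rw [List.mem_toFinset, List.mem_map]

/-- The situation before the suffix `L` of a star network. -/
structure Good (z : Fin n) (C : Set (Fin 3 → Fin n)) (D : Finset (Fin n))
    (L : List (Fin n × Fin n)) : Prop where
  star : ∀ T ∈ L, T.1 = z ∧ T.2 ≠ z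
  inj : ∀ f ∈ C, Function.Injective f
  rg : ∀ f ∈ C, ∀ i, f i = z ∨ f i ∈ D
  zD : z ∉ D
  net : Net3 C L

variable {z : Fin n} {C : Set (Fin 3 → Fin n)} {D : Finset (Fin n)} {T : Fin n × Fin n}
  {L : List (Fin n × Fin n)}

theorem Good.tail (h : Good z C D (T :: L)) : Good z (nx C T) (insert T.2 D) L := by
  have hT := h.star T List.mem_cons_self
  refine ⟨fun T' hT' => h.star T' (List.mem_cons_of_mem _ hT'), ?_, ?_, ?_, h.net.tail⟩
  · rintro g ⟨f, hf, rfl | rfl⟩
    · exact h.inj _ hf
    · exact (Equiv.swap T.1 T.2).injective.comp (h.inj _ hf)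
  · rintro g ⟨f, hf, rfl | rfl⟩ i
    · rcases h.rg _ hf i with h1 | h1
      · exact Or.inl h1
      · exact Or.inr (Finset.mem_insert_of_mem h1)
    · show Equiv.swap T.1 T.2 (f i) = z ∨ Equiv.swap T.1 T.2 (f i) ∈ insert T.2 D
      rw [hT.1]
      rcases h.rg _ hf i with h1 | h1
      · rw [h1, Equiv.swap_apply_left]
        exact Or.inr (Finset.mem_insert_self _ _)
      · by_cases h2 : f i = T.2
        · rw [h2, Equiv.swap_apply_right]
          exact Or.inl rfl
        · have h3 : f i ≠ z := fun h' => h.zD (h' ▸ h1)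
          rw [Equiv.swap_apply_of_ne_of_ne h3 h2]
          exact Or.inr (Finset.mem_insert_of_mem h1)
  · rw [Finset.mem_insert, not_or]
    exact ⟨fun h' => hT.2 h'.symm, h.zD⟩

/-- A finished leaf keeps its contents. -/
theorem fin_iff (hs : ∀ T ∈ L, T.1 = z ∧ T.2 ≠ z) {f x : Fin 3 → Fin n} (h : Reach L f x)
    {y : Fin n} (hz : y ≠ z) (hy : y ∉ tch L) (i : Fin 3) : f i = y ↔ x i = y := by
  obtain ⟨M, hM, hm⟩ := h
  have h1 : move M y = y := by
    apply move_of_notMem
    intro T hT
    have h2 := hM.subset hT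
    refine ⟨?_, fun h' => hy (mem_tch.2 ⟨T, h2, h'⟩)⟩
    rw [(hs T h2).1]
    exact fun h' => hz h'.symm
  rw [← hm i]
  constructor
  · intro h'
    rw [h', h1]
  · intro h'
    rw [← h1] at h'
    exact move_injective M h'

theorem inj3 {a b c : Fin n} (h1 : a ≠ b) (h2 : a ≠ c) (h3 : b ≠ c) :
    Function.Injective ![a, b, c] := by
  intro i j hij
  fin_cases i <;> fin_cases j <;> simp_all

theorem exists_third (hn : 3 ≤ n) (a b : Fin n) : ∃ c : Fin n, c ≠ a ∧ c ≠ b := by
  have h1 : ({a, b} : Finset (Fin n)).card < (Finset.univ : Finset (Fin n)).card := by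
    rw [Finset.card_univ, Fintype.card_fin]
    exact lt_of_le_of_lt Finset.card_le_two (by omega)
  obtain ⟨c, -, hc⟩ := Finset.exists_mem_notMem_of_card_lt_card h1
  rw [Finset.mem_insert, Finset.mem_singleton, not_or] at hc
  exact ⟨c, hc.1, hc.2⟩

/-- If `x` holds a counter then the centre is empty. -/
def F1 (z : Fin n) (C : Set (Fin 3 → Fin n)) (x : Fin n) : Prop :=
  ∀ f ∈ C, (∃ i, f i = x) → ∀ i, f i ≠ z

/-- If `x` and `y` hold counters then the centre is empty. -/
def F2 (z : Fin n) (C : Set (Fin 3 → Fin n)) (x y : Fin n) : Prop :=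
  ∀ f ∈ C, (∃ i, f i = x) → (∃ i, f i = y) → ∀ i, f i ≠ z

/-- A leaf which is not touched any more and was never touched cannot hold a counter. -/
theorem Good.mem_or (hn : 3 ≤ n) (h : Good z C D L) {b : Fin n} (hb : b ≠ z) :
    b ∈ D ∨ b ∈ tch L := by
  by_contra h'
  rw [not_or] at h'
  obtain ⟨c, hc1, hc2⟩ := exists_third hn b z
  obtain ⟨f, hf, hr⟩ := h.net ![b, z, c] (inj3 hb hc1.symm hc2.symm)
  have h1 := (fin_iff h.star hr hb h'.2 0).2 rfl
  rcases h.rg f hf 0 with h2 | h2
  · rw [h1] at h2
    exact hb h2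
  · rw [h1] at h2
    exact h'.1 h2

/-- The potential of a suffix. -/
theorem pot (hn : 3 ≤ n) : ∀ (L : List (Fin n × Fin n)) (C : Set (Fin 3 → Fin n))
    (D : Finset (Fin n)), Good z C D L →
      2 * (tch L).card ≤ 3 * ful D L ∧
      (∀ x, x ≠ z → x ∉ tch L → F1 z C x → 2 * (tch L).card + 2 ≤ 3 * ful D L) ∧
      (∀ x y, x ≠ y → x ≠ z → y ≠ z → x ∉ tch L → y ∉ tch L → F2 z C x y →
        2 * (tch L).card + 1 ≤ 3 * ful D L) := by
  intro L
  induction L with
  | nil =>
    intro C D h
    refine ⟨by simp, ?_, ?_⟩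
    · intro x hx _ hF
      exfalso
      obtain ⟨c, hc1, hc2⟩ := exists_third hn x z
      obtain ⟨f, hf, hr⟩ := h.net ![x, z, c] (inj3 hx hc1.symm hc2.symm)
      have h1 : ∀ i, f i = ![x, z, c] i := by
        obtain ⟨M, hM, hm⟩ := hr
        rw [List.sublist_nil] at hM
        subst hM
        exact hm
      exact hF f hf ⟨0, h1 0⟩ 1 (h1 1)
    · intro x y hxy hx hy _ _ hF
      exfalso
      obtain ⟨f, hf, hr⟩ := h.net ![x, y, z] (inj3 hxy hx hy)
      have h1 : ∀ i, f i = ![x, y, z] i := by
        obtain ⟨M, hM, hm⟩ := hr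
        rw [List.sublist_nil] at hM
        subst hM
        exact hm
      exact hF f hf ⟨0, h1 0⟩ ⟨1, h1 1⟩ 2 (h1 2)
  | cons T L ih =>
    intro C D h
    have hT := h.star T List.mem_cons_self
    have h' := h.tail
    obtain ⟨p0, p1, p2⟩ := ih _ _ h'
    rw [tch_cons, ful_cons]
    by_cases ha : T.2 ∈ D
    · rw [if_pos ha]
      by_cases hb : T.2 ∈ tch L
      · rw [Finset.insert_eq_self.2 hb]
        exact ⟨by omega, fun _ _ _ _ => by omega, fun _ _ _ _ _ _ _ _ => by omega⟩
      · rw [Finset.card_insert_of_notMem hb]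
        refine ⟨by omega, ?_, fun _ _ _ _ _ _ _ _ => by omega⟩
        intro x hx hxL hF
        rw [Finset.mem_insert, not_or] at hxL
        have := p2 x T.2 hxL.1 hx hT.2 hxL.2 hb ?_
        · omega
        · rintro g ⟨f, hf, rfl | rfl⟩ h1 h2
          · exact hF _ hf h1
          · exfalso
            obtain ⟨i, hi⟩ := h1
            obtain ⟨j, hj⟩ := h2
            simp only at hi hj
            rw [hT.1] at hi hj
            have hi' : f i = x := by
              have := congrArg (Equiv.swap z T.2) hi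
              rw [Equiv.swap_apply_self, Equiv.swap_apply_of_ne_of_ne hx hxL.1] at this
              exact this
            have hj' : f j = z := by
              have := congrArg (Equiv.swap z T.2) hj
              rw [Equiv.swap_apply_self, Equiv.swap_apply_right] at this
              exact this
            exact hF f hf ⟨i, hi'⟩ j hj'
    · rw [if_neg ha]
      have hTf : ∀ f ∈ C, ∀ i, f i ≠ T.2 := by
        intro f hf i hi
        rcases h.rg f hf i with h1 | h1
        · rw [h1] at hi
          exact hT.2 hi.symm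
        · rw [hi] at h1
          exact ha h1
      -- the centre is empty after a swap
      have hce : ∀ f ∈ C, ∀ i, Equiv.swap T.1 T.2 (f i) ≠ z := by
        intro f hf i hi
        rw [hT.1] at hi
        have := congrArg (Equiv.swap z T.2) hi
        rw [Equiv.swap_apply_self, Equiv.swap_apply_left] at this
        exact hTf f hf i this
      by_cases hb : T.2 ∈ tch L
      · rw [Finset.insert_eq_self.2 hb]
        refine ⟨by omega, ?_, ?_⟩
        · intro x hx hxL hF
          have := p1 x hx hxL ?_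
          · omega
          · rintro g ⟨f, hf, rfl | rfl⟩ h1
            · exact hF _ hf h1
            · exact hce f hf
        · intro x y hxy hx hy hxL hyL hF
          have := p2 x y hxy hx hy hxL hyL ?_
          · omega
          · rintro g ⟨f, hf, rfl | rfl⟩ h1 h2
            · exact hF _ hf h1 h2
            · exact hce f hf
      · rw [Finset.card_insert_of_notMem hb]
        have h1 := p1 T.2 hT.2 hb ?_
        · refine ⟨by omega, ?_, ?_⟩
          · intro x hx hxL hF
            rw [Finset.mem_insert, not_or] at hxL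
            exfalso
            obtain ⟨c, hc1, hc2⟩ := exists_third hn x T.2
            obtain ⟨g, ⟨f, hf, hg⟩, hr⟩ := h'.net ![x, T.2, c] (inj3 hxL.1 hc1.symm hc2.symm)
            have g0 := (fin_iff h'.star hr hx hxL.2 0).2 rfl
            have g1 := (fin_iff h'.star hr hT.2 hb 1).2 rfl
            rcases hg with rfl | rfl
            · exact hTf _ hf 1 g1
            · simp only at g0 g1
              rw [hT.1] at g0 g1
              have f0 : f 0 = x := by
                have := congrArg (Equiv.swap z T.2) g0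
                rw [Equiv.swap_apply_self, Equiv.swap_apply_of_ne_of_ne hx hxL.1] at this
                exact this
              have f1 : f 1 = z := by
                have := congrArg (Equiv.swap z T.2) g1
                rw [Equiv.swap_apply_self, Equiv.swap_apply_right] at this
                exact this
              exact hF f hf ⟨0, f0⟩ 1 f1
          · intro x y hxy hx hy hxL hyL hF
            rw [Finset.mem_insert, not_or] at hxL hyL
            exfalso
            obtain ⟨g, ⟨f, hf, hg⟩, hr⟩ := h'.net ![x, y, T.2] (inj3 hxy hxL.1 hyL.1)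
            have g0 := (fin_iff h'.star hr hx hxL.2 0).2 rfl
            have g1 := (fin_iff h'.star hr hy hyL.2 1).2 rfl
            have g2 := (fin_iff h'.star hr hT.2 hb 2).2 rfl
            rcases hg with rfl | rfl
            · exact hTf _ hf 2 g2
            · simp only at g0 g1 g2
              rw [hT.1] at g0 g1 g2
              have f0 : f 0 = x := by
                have := congrArg (Equiv.swap z T.2) g0
                rw [Equiv.swap_apply_self, Equiv.swap_apply_of_ne_of_ne hx hxL.1] at this
                exact this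
              have f1 : f 1 = y := by
                have := congrArg (Equiv.swap z T.2) g1
                rw [Equiv.swap_apply_self, Equiv.swap_apply_of_ne_of_ne hy hyL.1] at this
                exact this
              have f2 : f 2 = z := by
                have := congrArg (Equiv.swap z T.2) g2
                rw [Equiv.swap_apply_self, Equiv.swap_apply_right] at this
                exact this
              exact hF f hf ⟨0, f0⟩ ⟨1, f1⟩ 2 f2
        · rintro g ⟨f, hf, rfl | rfl⟩ h1
          · obtain ⟨i, hi⟩ := h1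
            exact absurd hi (hTf _ hf i)
          · exact hce f hf

/-- The length of a list: the first touches and the others. -/
theorem length_eq (L : List (Fin n × Fin n)) (D : Finset (Fin n)) :
    L.length = ful D L + (tch L \ D).card := by
  induction L generalizing D with
  | nil => simp [ful]
  | cons T L ih =>
    rw [List.length_cons, ih (insert T.2 D), tch_cons, ful_cons]
    by_cases ha : T.2 ∈ D
    · rw [if_pos ha, Finset.insert_eq_self.2 ha, Finset.insert_sdiff_of_mem _ ha]
      omega
    · rw [if_neg ha, Finset.insert_sdiff_of_notMem _ ha]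
      have h1 : insert T.2 (tch L \ D) = insert T.2 (tch L \ insert T.2 D) := by
        ext y
        simp only [Finset.mem_insert, Finset.mem_sdiff]
        tauto
      rw [h1, Finset.card_insert_of_notMem]
      · omega
      · rw [Finset.mem_sdiff]
        rintro ⟨-, h2⟩
        exact h2 (Finset.mem_insert_self _ _)

end ReachNet.Ex
end

section

section

/-!
# Star networks with three counters: the operations on codes of sets of triples
-/

set_option autoImplicit false
set_option maxRecDepth 100000

namespace ReachNet.Ex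

theorem base2_test : (List.range 4096).all (fun i => base2.testBit i == decide (i % 16 = 0))
    = true := by decide +kernel

theorem base1_test : (List.range 4096).all (fun i => base1.testBit i == decide (i % 256 < 16))
    = true := by decide +kernel

theorem base2_testBit {i : ℕ} (h : i < 4096) : base2.testBit i = decide (i % 16 = 0) := by
  have := List.all_eq_true.1 base2_test i (List.mem_range.2 h)
  exact beq_iff_eq.1 this

theorem base1_testBit {i : ℕ} (h : i < 4096) : base1.testBit i = decide (i % 256 < 16) := by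
  have := List.all_eq_true.1 base1_test i (List.mem_range.2 h)
  exact beq_iff_eq.1 this

/-- The number of a triple. -/
def idx (t : Fin 3 → ℕ) : ℕ := 256 * t 0 + 16 * t 1 + t 2

/-- The triple `t` is in the set coded by `R`. -/
def Mem (R : ℕ) (t : Fin 3 → ℕ) : Prop := R.testBit (idx t) = true

variable {R R' W p q x y : ℕ} {t : Fin 3 → ℕ}

theorem idx_lt (ht : ∀ i, t i < 16) : idx t < 4096 := by
  have h0 := ht 0
  have h1 := ht 1
  have h2 := ht 2
  unfold idx
  omega

theorem full_mem (ht : ∀ i, t i < 16) : Mem full t := by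
  unfold Mem full
  rw [Nat.testBit_two_pow_sub_one]
  exact decide_eq_true (idx_lt ht)

theorem mask0_iff (ht : ∀ i, t i < 16) : Mem (mask 0 x) t ↔ t 0 = x := by
  have h0 := ht 0
  have h1 := ht 1
  have h2 := ht 2
  unfold Mem mask idx
  simp only [Nat.testBit_shiftLeft, Nat.testBit_two_pow_sub_one, Bool.and_eq_true,
    decide_eq_true_eq]
  omega

theorem mask1_iff (hx : x < 16) (ht : ∀ i, t i < 16) : Mem (mask 1 x) t ↔ t 1 = x := by
  have h0 := ht 0
  have h1 := ht 1
  have h2 := ht 2
  unfold Mem mask idx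
  simp only [Nat.testBit_shiftLeft, Bool.and_eq_true, decide_eq_true_eq]
  rw [base1_testBit (by omega), decide_eq_true_eq]
  omega

theorem mask2_iff (hx : x < 16) (ht : ∀ i, t i < 16) : Mem (mask 2 x) t ↔ t 2 = x := by
  have h0 := ht 0
  have h1 := ht 1
  have h2 := ht 2
  unfold Mem mask idx
  simp only [Nat.testBit_shiftLeft, Bool.and_eq_true, decide_eq_true_eq]
  rw [base2_testBit (by omega), decide_eq_true_eq]
  omega

theorem mask_iff (j : Fin 3) (hx : x < 16) (ht : ∀ i, t i < 16) :
    Mem (mask j x) t ↔ t j = x := by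
  fin_cases j
  · exact mask0_iff ht
  · exact mask1_iff hx ht
  · exact mask2_iff hx ht

theorem mem_or : Mem (R ||| R') t ↔ Mem R t ∨ Mem R' t := by
  unfold Mem
  rw [Nat.testBit_or, Bool.or_eq_true]

theorem mem_and : Mem (R &&& R') t ↔ Mem R t ∧ Mem R' t := by
  unfold Mem
  rw [Nat.testBit_and, Bool.and_eq_true]

theorem mem_full_xor (ht : ∀ i, t i < 16) (h : ¬ Mem R t) : Mem (full ^^^ R) t := by
  have h1 := full_mem ht
  unfold Mem at h h1 ⊢
  rw [Nat.testBit_xor, h1]
  simp only [Bool.not_eq_true] at h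
  rw [h]
  rfl

theorem idx_update (j : Fin 3) : idx (Function.update t j q) + wt j * t j = idx t + wt j * q := by
  unfold idx
  fin_cases j <;> simp [wt, Function.update] <;> omega

theorem wt_le (j : Fin 3) : wt j * t j ≤ idx t := by
  unfold idx
  fin_cases j <;> simp [wt] <;> omega

theorem mem_mv (j : Fin 3) (ht : ∀ i, t i < 16) (h : Mem R t) (hj : t j = p) :
    Mem (mv j R p q) (Function.update t j q) := by
  have h1 : Mem (R &&& mask j p) t :=
    mem_and.2 ⟨h, (mask_iff j (by rw [← hj]; exact ht j) ht).2 hj⟩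
  have h2 := idx_update (t := t) (q := q) j
  have h3 := wt_le (t := t) j
  have h4 := wt_le (t := Function.update t j q) j
  rw [Function.update_self] at h4
  unfold Mem mv
  rw [Nat.testBit_shiftLeft, Nat.testBit_shiftRight, Bool.and_eq_true, decide_eq_true_eq]
  refine ⟨h4, ?_⟩
  have h5 : wt j * p + (idx (Function.update t j q) - wt j * q) = idx t := by
    rw [← hj]
    omega
  rw [h5]
  exact h1

theorem mem_nomask (hp : p < 16) (ht : ∀ i, t i < 16) (h : ∀ j, t j ≠ p) : Mem (nomask p) t := by
  unfold nomask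
  apply mem_full_xor ht
  rw [mem_or, mem_or, mask0_iff ht, mask1_iff hp ht, mask2_iff hp ht]
  intro h'
  rcases h' with h' | h' | h'
  · exact h 0 h'
  · exact h 1 h'
  · exact h 2 h'

/-- Some operation `mv`. -/
def mvs (R p q : ℕ) : ℕ := mv 0 R p q ||| (mv 1 R p q ||| mv 2 R p q)

theorem mem_mvs (j : Fin 3) (ht : ∀ i, t i < 16) (h : Mem R t) (hj : t j = p) :
    Mem (mvs R p q) (Function.update t j q) := by
  have h1 := mem_mv (q := q) j ht h hj
  unfold mvs
  rw [mem_or, mem_or]
  fin_cases j
  · exact Or.inl h1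
  · exact Or.inr (Or.inl h1)
  · exact Or.inr (Or.inr h1)

/-- Replace `p` by `q`. -/
def rep (p q : ℕ) (t : Fin 3 → ℕ) : Fin 3 → ℕ := fun i => if t i = p then q else t i

theorem mem_ren (hp : p < 16) (ht : ∀ i, t i < 16) (h : Mem R t)
    (hu : ∀ i j, t i = p → t j = p → i = j) : Mem (ren R p q) (rep p q t) := by
  have h0 : ren R p q = (R &&& nomask p) ||| mvs R p q := rfl
  rw [h0, mem_or]
  by_cases hj : ∃ j, t j = p
  · obtain ⟨j, hj⟩ := hj
    right
    have h1 := mem_mvs (q := q) j ht h hj
    have h2 : rep p q t = Function.update t j q := by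
      funext i
      unfold rep
      by_cases hi : i = j
      · subst hi
        rw [if_pos hj, Function.update_self]
      · rw [Function.update_of_ne hi, if_neg (fun h' => hi (hu i j h' hj))]
    rw [h2]
    exact h1
  · left
    push Not at hj
    have h2 : rep p q t = t := by
      funext i
      unfold rep
      rw [if_neg (hj i)]
    rw [h2, mem_and]
    exact ⟨h, mem_nomask hp ht hj⟩

theorem rep_lt (hq : q < 16) (ht : ∀ i, t i < 16) : ∀ i, rep p q t i < 16 := by
  intro i
  unfold rep
  split_ifs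
  · exact hq
  · exact ht i

theorem mem_inF (j : Fin 3) {F : List ℕ} (hF : ∀ x ∈ F, x < 16) (ht : ∀ i, t i < 16)
    (h : Mem (inF j F) t) : t j ∈ F := by
  induction F with
  | nil =>
    exfalso
    unfold inF Mem at h
    simp only [List.foldr_nil, Nat.zero_testBit, Bool.false_eq_true] at h
  | cons x F ih =>
    have h1 : inF j (x :: F) = mask j x ||| inF j F := rfl
    rw [h1, mem_or, mask_iff j (hF x (List.mem_cons_self)) ht] at h
    rcases h with h | h
    · rw [h]
      exact List.mem_cons_self
    · exact List.mem_cons_of_mem _ (ih (fun y hy => hF y (List.mem_cons_of_mem _ hy)) h)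

theorem mem_out (j : Fin 3) {F : List ℕ} (hF : ∀ x ∈ F, x < 16) (ht : ∀ i, t i < 16)
    (h : t j ∉ F) : Mem (out j F) t :=
  mem_full_xor ht fun h' => h (mem_inF j hF ht h')

end ReachNet.Ex
end

section

/-!
# Star networks with three counters: the states of the search describe the networks
-/

set_option autoImplicit false

namespace ReachNet.Ex

variable {n : ℕ}

/-- The state `S` describes the situation before the suffix `L`; `φ` gives the numbers of the
positions. -/
structure Sim (z : Fin n) (C : Set (Fin 3 → Fin n)) (D : Finset (Fin n))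
    (L : List (Fin n × Fin n)) (S : St) (φ : Fin n → ℕ) : Prop where
  z0 : φ z = 0
  mem : ∀ f ∈ C, Mem S.R (fun i => φ (f i))
  memc : ∀ f ∈ C, Mem S.R (rep 0 S.e (fun i => φ (f i)))
  pos : ∀ a ∈ D, 0 < φ a
  lt : ∀ a ∈ D, φ a < S.k
  finF : ∀ a ∈ D, a ∉ tch L → φ a ∈ S.F
  Ffin : ∀ p ∈ S.F, ∃ a ∈ D, a ∉ tch L ∧ φ a = p
  live : ∀ a ∈ D, a ∈ tch L → φ a ∈ S.V ∨ φ a ∈ S.E
  Vlive : ∀ p ∈ S.V, ∃ a ∈ D, a ∈ tch L ∧ φ a = p
  uniq : ∀ a ∈ D, ∀ b ∈ D, φ a = φ b → φ a ∈ S.E ∨ a = b
  FE : ∀ p ∈ S.E, p ∉ S.F
  VE : ∀ p ∈ S.E, p ∉ S.V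
  Elt : ∀ p ∈ S.E, 0 < p ∧ p < S.k
  eE : S.e ∈ S.E
  nd : S.F.Nodup
  k16 : S.k ≤ 16

variable {z : Fin n} {C : Set (Fin 3 → Fin n)} {D : Finset (Fin n)} {T : Fin n × Fin n}
  {L : List (Fin n × Fin n)} {S : St} {φ : Fin n → ℕ}

theorem Sim.kpos (h : Sim z C D L S φ) : 0 < S.k :=
  lt_of_le_of_lt (Nat.zero_le _) (h.Elt _ h.eE).2

/-- The numbers of a configuration. -/
theorem Sim.lt16 (h : Sim z C D L S φ) (hg : Good z C D L) {f : Fin 3 → Fin n} (hf : f ∈ C) :
    ∀ i, φ (f i) < S.k := by
  intro i
  rcases hg.rg f hf i with h1 | h1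
  · rw [h1, h.z0]
    exact h.kpos
  · exact h.lt _ h1

theorem Sim.zero_iff (h : Sim z C D L S φ) (hg : Good z C D L) {f : Fin 3 → Fin n} (hf : f ∈ C)
    (i : Fin 3) : φ (f i) = 0 ↔ f i = z := by
  constructor
  · intro h'
    rcases hg.rg f hf i with h1 | h1
    · exact h1
    · have := h.pos _ h1
      omega
  · intro h'
    rw [h', h.z0]

theorem Sim.zuniq (h : Sim z C D L S φ) (hg : Good z C D L) {f : Fin 3 → Fin n} (hf : f ∈ C)
    (i j : Fin 3) (hi : φ (f i) = 0) (hj : φ (f j) = 0) : i = j := by
  rw [h.zero_iff hg hf] at hi hj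
  exact hg.inj f hf (hi.trans hj.symm)

theorem Sim.F_notMem_zero (h : Sim z C D L S φ) : 0 ∉ S.F := by
  intro h'
  obtain ⟨a, ha, -, h1⟩ := h.Ffin 0 h'
  have := h.pos a ha
  omega

theorem Sim.F_lt (h : Sim z C D L S φ) : ∀ p ∈ S.F, p < S.k := by
  intro p hp
  obtain ⟨a, ha, -, h1⟩ := h.Ffin p hp
  rw [← h1]
  exact h.lt a ha

theorem Sim.V_lt (h : Sim z C D L S φ) : ∀ p ∈ S.V, p < S.k := by
  intro p hp
  obtain ⟨a, ha, -, h1⟩ := h.Vlive p hp
  rw [← h1]
  exact h.lt a ha

/-- The number of finished leaves. -/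
theorem Sim.card (hn : 3 ≤ n) (h : Sim z C D L S φ) (hg : Good z C D L) :
    S.F.length + (tch L).card = n - 1 := by
  have h1 : S.F.toFinset = (D \ tch L).image φ := by
    ext p
    rw [List.mem_toFinset, Finset.mem_image]
    constructor
    · intro hp
      obtain ⟨a, ha, hb, hc⟩ := h.Ffin p hp
      exact ⟨a, Finset.mem_sdiff.2 ⟨ha, hb⟩, hc⟩
    · rintro ⟨a, ha, rfl⟩
      rw [Finset.mem_sdiff] at ha
      exact h.finF a ha.1 ha.2
  have h2 : S.F.length = (D \ tch L).card := by
    rw [← List.toFinset_card_of_nodup h.nd, h1, Finset.card_image_of_injOn]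
    intro a ha b hb hab
    rw [Finset.mem_coe, Finset.mem_sdiff] at ha hb
    rcases h.uniq a ha.1 b hb.1 hab with h3 | h3
    · exact absurd (h.finF a ha.1 ha.2) (h.FE _ h3)
    · exact h3
  have h3 : D ∪ tch L = Finset.univ.erase z := by
    ext b
    rw [Finset.mem_union, Finset.mem_erase]
    constructor
    · rintro (hb | hb)
      · exact ⟨fun h' => hg.zD (h' ▸ hb), Finset.mem_univ _⟩
      · obtain ⟨T, hT, rfl⟩ := mem_tch.1 hb
        exact ⟨(hg.star T hT).2, Finset.mem_univ _⟩
    · rintro ⟨hb, -⟩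
      exact hg.mem_or hn hb
  rw [h2, ← Finset.card_union_of_disjoint Finset.sdiff_disjoint, Finset.sdiff_union_self_eq_union,
    h3, Finset.card_erase_of_mem (Finset.mem_univ _), Finset.card_univ, Fintype.card_fin]

/-! ### The first touch of a leaf which will be touched again -/

theorem Sim.open_step (h : Sim z C D (T :: L) S φ) (hg : Good z C D (T :: L)) (ha : T.2 ∉ D)
    (hb : T.2 ∈ tch L) :
    Sim z (nx C T) (insert T.2 D) L S (Function.update φ T.2 S.e) := by
  have hT := hg.star T List.mem_cons_self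
  have hz : Function.update φ T.2 S.e z = 0 := by
    rw [Function.update_of_ne (fun h' => hT.2 h'.symm), h.z0]
  have hD : ∀ b ∈ D, Function.update φ T.2 S.e b = φ b := by
    intro b hb'
    rw [Function.update_of_ne]
    rintro rfl
    exact ha hb'
  have hu : ∀ f ∈ C, ∀ i, Function.update φ T.2 S.e (f i) = φ (f i) := by
    intro f hf i
    rcases hg.rg f hf i with h1 | h1
    · rw [h1, hz, h.z0]
    · exact hD _ h1
  have hsw : ∀ f ∈ C, (fun i => Function.update φ T.2 S.e (Equiv.swap T.1 T.2 (f i)))
      = rep 0 S.e (fun i => φ (f i)) := by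
    intro f hf
    funext i
    show _ = if φ (f i) = 0 then _ else φ (f i)
    rw [hT.1]
    by_cases h0 : f i = z
    · rw [h0, Equiv.swap_apply_left, Function.update_self, if_pos h.z0]
    · have h1 := (hg.rg f hf i).resolve_left h0
      have h2 : f i ≠ T.2 := fun h' => ha (by rw [← h']; exact h1)
      rw [if_neg (fun h' => h0 ((h.zero_iff hg hf i).1 h')), Equiv.swap_apply_of_ne_of_ne h0 h2,
        hD _ h1]
  have he := h.Elt _ h.eE
  have htc : ∀ b, b ∈ tch (T :: L) ↔ b ∈ tch L := by
    intro b
    rw [tch_cons, Finset.insert_eq_self.2 hb]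
  refine ⟨hz, ?_, ?_, ?_, ?_, ?_, ?_, ?_, ?_, ?_, h.FE, h.VE, h.Elt, h.eE, h.nd, h.k16⟩
  · rintro g ⟨f, hf, rfl | rfl⟩
    · rw [show (fun i => Function.update φ T.2 S.e (g i)) = fun i => φ (g i) from
        funext (hu g hf)]
      exact h.mem _ hf
    · show Mem S.R (fun i => Function.update φ T.2 S.e (Equiv.swap T.1 T.2 (f i)))
      rw [hsw f hf]
      exact h.memc f hf
  · rintro g ⟨f, hf, rfl | rfl⟩
    · rw [show (fun i => Function.update φ T.2 S.e (g i)) = fun i => φ (g i) from
        funext (hu g hf)]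
      exact h.memc _ hf
    · show Mem S.R (rep 0 S.e (fun i => Function.update φ T.2 S.e (Equiv.swap T.1 T.2 (f i))))
      rw [hsw f hf]
      have h1 : rep 0 S.e (rep 0 S.e (fun i => φ (f i))) = rep 0 S.e (fun i => φ (f i)) := by
        funext i
        unfold rep
        split_ifs <;> rfl
      rw [h1]
      exact h.memc f hf
  · intro b hb'
    rw [Finset.mem_insert] at hb'
    rcases hb' with rfl | hb'
    · rw [Function.update_self]
      exact he.1
    · rw [hD b hb']
      exact h.pos b hb'
  · intro b hb'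
    rw [Finset.mem_insert] at hb'
    rcases hb' with rfl | hb'
    · rw [Function.update_self]
      exact he.2
    · rw [hD b hb']
      exact h.lt b hb'
  · intro b hb' hbL
    rw [Finset.mem_insert] at hb'
    rcases hb' with rfl | hb'
    · exact absurd hb hbL
    · rw [hD b hb']
      exact h.finF b hb' (fun h' => hbL ((htc b).1 h'))
  · intro p hp
    obtain ⟨b, hb', h1, h2⟩ := h.Ffin p hp
    exact ⟨b, Finset.mem_insert_of_mem hb', fun h' => h1 ((htc b).2 h'), by rw [hD b hb', h2]⟩
  · intro b hb' hbL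
    rw [Finset.mem_insert] at hb'
    rcases hb' with rfl | hb'
    · rw [Function.update_self]
      exact Or.inr h.eE
    · rw [hD b hb']
      exact h.live b hb' ((htc b).2 hbL)
  · intro p hp
    obtain ⟨b, hb', h1, h2⟩ := h.Vlive p hp
    exact ⟨b, Finset.mem_insert_of_mem hb', (htc b).1 h1, by rw [hD b hb', h2]⟩
  · intro b hb' c hc hbc
    rw [Finset.mem_insert] at hb' hc
    rcases hb' with rfl | hb'
    · rw [Function.update_self]
      exact Or.inl h.eE
    · rcases hc with rfl | hc
      · rw [hbc, Function.update_self]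
        exact Or.inl h.eE
      · rw [hD b hb', hD c hc] at hbc
        rw [hD b hb']
        exact h.uniq b hb' c hc hbc

/-! ### The only touch of a leaf -/

theorem Sim.slot_step (h : Sim z C D (T :: L) S φ) (hg : Good z C D (T :: L)) (ha : T.2 ∉ D)
    (hb : T.2 ∉ tch L) (hk : S.k ≤ 15) :
    Sim z (nx C T) (insert T.2 D) L (slot S) (Function.update φ T.2 S.k) := by
  have hT := hg.star T List.mem_cons_self
  have hz : Function.update φ T.2 S.k z = 0 := by
    rw [Function.update_of_ne (fun h' => hT.2 h'.symm), h.z0]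
  have hD : ∀ b ∈ D, Function.update φ T.2 S.k b = φ b := by
    intro b hb'
    rw [Function.update_of_ne]
    rintro rfl
    exact ha hb'
  have hu : ∀ f ∈ C, ∀ i, Function.update φ T.2 S.k (f i) = φ (f i) := by
    intro f hf i
    rcases hg.rg f hf i with h1 | h1
    · rw [h1, hz, h.z0]
    · exact hD _ h1
  have hsw : ∀ f ∈ C, (fun i => Function.update φ T.2 S.k (Equiv.swap T.1 T.2 (f i)))
      = rep 0 S.k (fun i => φ (f i)) := by
    intro f hf
    funext i
    show _ = if φ (f i) = 0 then _ else φ (f i)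
    rw [hT.1]
    by_cases h0 : f i = z
    · rw [h0, Equiv.swap_apply_left, Function.update_self, if_pos h.z0]
    · have h1 := (hg.rg f hf i).resolve_left h0
      have h2 : f i ≠ T.2 := fun h' => ha (by rw [← h']; exact h1)
      rw [if_neg (fun h' => h0 ((h.zero_iff hg hf i).1 h')), Equiv.swap_apply_of_ne_of_ne h0 h2,
        hD _ h1]
  have hkp := h.kpos
  have hren : ∀ f ∈ C, Mem (ren S.R 0 S.k) (rep 0 S.k (fun i => φ (f i))) := by
    intro f hf
    apply mem_ren (by norm_num) _ (h.mem f hf)
    · exact fun i j hi hj => h.zuniq hg hf i j hi hj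
    · intro i
      have := h.lt16 hg hf i
      omega
  have htc : ∀ b ∈ D, (b ∈ tch (T :: L) ↔ b ∈ tch L) := by
    intro b hb'
    rw [tch_cons, Finset.mem_insert]
    constructor
    · rintro (rfl | h1)
      · exact absurd hb' ha
      · exact h1
    · exact Or.inr
  refine ⟨hz, ?_, ?_, ?_, ?_, ?_, ?_, ?_, ?_, ?_, ?_, ?_, ?_, ?_, ?_, ?_⟩
  · rintro g ⟨f, hf, rfl | rfl⟩
    · rw [show (fun i => Function.update φ T.2 S.k (g i)) = fun i => φ (g i) from
        funext (hu g hf)]
      exact mem_or.2 (Or.inl (h.mem _ hf))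
    · show Mem (S.R ||| ren S.R 0 S.k)
        (fun i => Function.update φ T.2 S.k (Equiv.swap T.1 T.2 (f i)))
      rw [hsw f hf]
      exact mem_or.2 (Or.inr (hren f hf))
  · rintro g ⟨f, hf, rfl | rfl⟩
    · rw [show (fun i => Function.update φ T.2 S.k (g i)) = fun i => φ (g i) from
        funext (hu g hf)]
      exact mem_or.2 (Or.inl (h.memc _ hf))
    · show Mem (S.R ||| ren S.R 0 S.k)
        (rep 0 S.e (fun i => Function.update φ T.2 S.k (Equiv.swap T.1 T.2 (f i))))
      rw [hsw f hf]
      have h1 : rep 0 S.e (rep 0 S.k (fun i => φ (f i))) = rep 0 S.k (fun i => φ (f i)) := by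
        funext i
        unfold rep
        split_ifs with h2 h3
        · omega
        · rfl
        · rfl
      rw [h1]
      exact mem_or.2 (Or.inr (hren f hf))
  · intro b hb'
    rw [Finset.mem_insert] at hb'
    rcases hb' with rfl | hb'
    · rw [Function.update_self]
      exact hkp
    · rw [hD b hb']
      exact h.pos b hb'
  · intro b hb'
    show _ < S.k + 1
    rw [Finset.mem_insert] at hb'
    rcases hb' with rfl | hb'
    · rw [Function.update_self]
      omega
    · rw [hD b hb']
      have := h.lt b hb'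
      omega
  · intro b hb' hbL
    show _ ∈ S.k :: S.F
    rw [Finset.mem_insert] at hb'
    rcases hb' with rfl | hb'
    · rw [Function.update_self]
      exact List.mem_cons_self
    · rw [hD b hb']
      exact List.mem_cons_of_mem _ (h.finF b hb' (fun h' => hbL ((htc b hb').1 h')))
  · intro p hp
    have hp' : p = S.k ∨ p ∈ S.F := List.mem_cons.1 hp
    rcases hp' with rfl | hp'
    · exact ⟨T.2, Finset.mem_insert_self _ _, hb, Function.update_self _ _ _⟩
    · obtain ⟨b, hb', h1, h2⟩ := h.Ffin p hp'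
      exact ⟨b, Finset.mem_insert_of_mem hb', fun h' => h1 ((htc b hb').2 h'), by
        rw [hD b hb', h2]⟩
  · intro b hb' hbL
    rw [Finset.mem_insert] at hb'
    rcases hb' with rfl | hb'
    · exact absurd hbL hb
    · rw [hD b hb']
      exact h.live b hb' ((htc b hb').2 hbL)
  · intro p hp
    obtain ⟨b, hb', h1, h2⟩ := h.Vlive p hp
    exact ⟨b, Finset.mem_insert_of_mem hb', (htc b hb').1 h1, by rw [hD b hb', h2]⟩
  · intro b hb' c hc hbc
    rw [Finset.mem_insert] at hb' hc
    rcases hb' with rfl | hb'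
    · rcases hc with rfl | hc
      · exact Or.inr rfl
      · exfalso
        rw [Function.update_self, hD c hc] at hbc
        have := h.lt c hc
        omega
    · rcases hc with rfl | hc
      · exfalso
        rw [Function.update_self, hD b hb'] at hbc
        have := h.lt b hb'
        omega
      · rw [hD b hb', hD c hc] at hbc
        rw [hD b hb']
        exact h.uniq b hb' c hc hbc
  · intro p hp hp'
    have hp'' : p = S.k ∨ p ∈ S.F := List.mem_cons.1 hp'
    rcases hp'' with rfl | hp''
    · have := (h.Elt _ hp).2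
      omega
    · exact h.FE p hp hp''
  · exact h.VE
  · intro p hp
    have := h.Elt p hp
    exact ⟨this.1, Nat.lt_succ_of_lt this.2⟩
  · exact h.eE
  · show (S.k :: S.F).Nodup
    rw [List.nodup_cons]
    refine ⟨fun h' => ?_, h.nd⟩
    have := h.F_lt _ h'
    omega
  · show S.k + 1 ≤ 16
    omega

/-! ### A new epoch -/

/-- The configurations of a new epoch `e`. -/
theorem clo_mem {R e : ℕ} {t : Fin 3 → ℕ} (ht : ∀ i, t i < 16) (h : Mem R t)
    (hu : ∀ i j, t i = 0 → t j = 0 → i = j) : Mem (clo R e) t ∧ Mem (clo R e) (rep 0 e t) :=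
  ⟨mem_or.2 (Or.inl h), mem_or.2 (Or.inr (mem_ren (by norm_num) ht h hu))⟩

end ReachNet.Ex
end

section

/-!
# Star networks with three counters: the full letters
-/

set_option autoImplicit false

namespace ReachNet.Ex

variable {n : ℕ}

variable {z : Fin n} {C : Set (Fin 3 → Fin n)} {D : Finset (Fin n)} {T : Fin n × Fin n}
  {L : List (Fin n × Fin n)} {S : St} {φ : Fin n → ℕ}

theorem Sim.tV_step (h : Sim z C D (T :: L) S φ) (hg : Good z C D (T :: L)) (ha : T.2 ∈ D)
    (hV : φ T.2 ∈ S.V) (hk : S.k ≤ 15) :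
    Sim z (nx C T) (insert T.2 D) L (tV S (φ T.2) (decide (T.2 ∉ tch L))) φ := by
  have hT := hg.star T List.mem_cons_self
  have hg' := hg.tail
  rw [Finset.insert_eq_self.2 ha] at hg' ⊢
  have hkp := h.kpos
  have hp0 := h.pos _ ha
  have hpk := h.lt _ ha
  -- the leaf is the only one with its number
  have hone : ∀ b ∈ D, φ b = φ T.2 → b = T.2 := by
    intro b hb hbT
    rcases h.uniq _ hb _ ha hbT with h1 | h1
    · rw [hbT] at h1
      exact absurd hV (h.VE _ h1)
    · exact h1
  have honef : ∀ f ∈ C, ∀ i, φ (f i) = φ T.2 → f i = T.2 := by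
    intro f hf i hi
    rcases hg.rg f hf i with h1 | h1
    · rw [h1, h.z0] at hi
      omega
    · exact hone _ h1 hi
  set R1 := S.R ||| ren (ren (ren S.R 0 S.k) (φ T.2) 0) S.k (φ T.2) with hR1
  have hlt : ∀ f ∈ C, ∀ i, φ (f i) < 16 := by
    intro f hf i
    have := h.lt16 hg hf i
    omega
  have hsw : ∀ f ∈ C, Mem R1 (fun i => φ (Equiv.swap T.1 T.2 (f i))) := by
    intro f hf
    have e1 : Mem (ren S.R 0 S.k) (rep 0 S.k (fun i => φ (f i))) :=
      mem_ren (by norm_num) (hlt f hf) (h.mem f hf) (fun i j hi hj => h.zuniq hg hf i j hi hj)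
    have e2 : Mem (ren (ren S.R 0 S.k) (φ T.2) 0)
        (rep (φ T.2) 0 (rep 0 S.k (fun i => φ (f i)))) := by
      apply mem_ren (by omega) (rep_lt (by omega) (hlt f hf)) e1
      have e3 : ∀ i, rep 0 S.k (fun i => φ (f i)) i = φ T.2 → f i = T.2 := by
        intro i hi
        have hi' : (if φ (f i) = 0 then S.k else φ (f i)) = φ T.2 := hi
        split_ifs at hi' with h0
        · omega
        · exact honef f hf i hi'
      intro i j hi hj
      exact hg.inj f hf ((e3 i hi).trans (e3 j hj).symm)
    have e4 : Mem (ren (ren (ren S.R 0 S.k) (φ T.2) 0) S.k (φ T.2))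
        (rep S.k (φ T.2) (rep (φ T.2) 0 (rep 0 S.k (fun i => φ (f i))))) := by
      apply mem_ren (by omega) (rep_lt (by norm_num) (rep_lt (by omega) (hlt f hf))) e2
      have e3 : ∀ i, rep (φ T.2) 0 (rep 0 S.k (fun i => φ (f i))) i = S.k → f i = z := by
        intro i hi
        have hi' : (if (if φ (f i) = 0 then S.k else φ (f i)) = φ T.2 then 0 else
          (if φ (f i) = 0 then S.k else φ (f i))) = S.k := hi
        by_contra h0
        have h1 : φ (f i) ≠ 0 := fun h' => h0 ((h.zero_iff hg hf i).1 h')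
        rw [if_neg h1] at hi'
        have h2 := h.lt16 hg hf i
        split_ifs at hi'
        · omega
        · omega
      intro i j hi hj
      exact hg.inj f hf ((e3 i hi).trans (e3 j hj).symm)
    have e5 : (fun i => φ (Equiv.swap T.1 T.2 (f i))) =
        rep S.k (φ T.2) (rep (φ T.2) 0 (rep 0 S.k (fun i => φ (f i)))) := by
      funext i
      show φ (Equiv.swap T.1 T.2 (f i)) = if (if (if φ (f i) = 0 then S.k else φ (f i)) = φ T.2
          then 0 else (if φ (f i) = 0 then S.k else φ (f i))) = S.k then φ T.2 else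
          (if (if φ (f i) = 0 then S.k else φ (f i)) = φ T.2
          then 0 else (if φ (f i) = 0 then S.k else φ (f i)))
      rw [hT.1]
      by_cases h0 : f i = z
      · rw [h0, Equiv.swap_apply_left, h.z0, if_pos rfl, if_neg (by omega : ¬ S.k = φ T.2),
          if_pos rfl]
      · have h1 : φ (f i) ≠ 0 := fun h' => h0 ((h.zero_iff hg hf i).1 h')
        rw [if_neg h1]
        by_cases h2 : f i = T.2
        · rw [h2, Equiv.swap_apply_right, if_pos rfl, if_neg (by omega : ¬ 0 = S.k), h.z0]
        · have h3 : φ (f i) ≠ φ T.2 := fun h' => h2 (honef f hf i h')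
          have h4 := h.lt16 hg hf i
          rw [Equiv.swap_apply_of_ne_of_ne h0 h2, if_neg h3,
            if_neg (by omega : ¬ φ (f i) = S.k)]
    rw [e5, hR1]
    exact mem_or.2 (Or.inr e4)
  -- the new configurations
  have hnew : ∀ g ∈ nx C T, Mem R1 (fun i => φ (g i)) := by
    rintro g ⟨f, hf, rfl | rfl⟩
    · rw [hR1]
      exact mem_or.2 (Or.inl (h.mem _ hf))
    · exact hsw f hf
  have hgl : ∀ g ∈ nx C T, ∀ i, φ (g i) < 16 := by
    intro g hg1 i
    rcases hg'.rg g hg1 i with h1 | h1
    · rw [h1, h.z0]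
      norm_num
    · have := h.lt _ h1
      omega
  have hgz : ∀ g ∈ nx C T, ∀ i j, φ (g i) = 0 → φ (g j) = 0 → i = j := by
    intro g hg1 i j hi hj
    have h1 : ∀ l, φ (g l) = 0 → g l = z := by
      intro l hl
      rcases hg'.rg g hg1 l with h2 | h2
      · exact h2
      · have := h.pos _ h2
        omega
    exact hg'.inj g hg1 ((h1 i hi).trans (h1 j hj).symm)
  have htc : ∀ b, b ≠ T.2 → (b ∈ tch (T :: L) ↔ b ∈ tch L) := by
    intro b hb
    rw [tch_cons, Finset.mem_insert]
    exact ⟨fun h1 => h1.resolve_left hb, Or.inr⟩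
  have hsub : ∀ b, b ∉ tch (T :: L) → b ∉ tch L := by
    intro b hb hb'
    rw [tch_cons] at hb
    exact hb (Finset.mem_insert_of_mem hb')
  have hpF : φ T.2 ∉ S.F := by
    intro h'
    obtain ⟨b, hb, hb1, hb2⟩ := h.Ffin _ h'
    rw [hone b hb hb2, tch_cons] at hb1
    exact hb1 (Finset.mem_insert_self _ _)
  have hVsub : ∀ p ∈ (tV S (φ T.2) (decide (T.2 ∉ tch L))).V, p ∈ S.V := by
    intro p hp
    unfold tV at hp
    simp only at hp
    split_ifs at hp
    · exact (List.mem_filter.1 hp).1
    · exact hp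
  have hFcase : ∀ p ∈ (tV S (φ T.2) (decide (T.2 ∉ tch L))).F, (p = φ T.2 ∧ T.2 ∉ tch L) ∨
      p ∈ S.F := by
    intro p hp
    unfold tV at hp
    simp only at hp
    split_ifs at hp with h1
    · rw [List.mem_cons] at hp
      rcases hp with hp | hp
      · exact Or.inl ⟨hp, of_decide_eq_true h1⟩
      · exact Or.inr hp
    · exact Or.inr hp
  refine ⟨h.z0, ?_, ?_, h.pos, ?_, ?_, ?_, ?_, ?_, ?_, ?_, ?_, ?_, ?_, ?_, ?_⟩
  · intro g hg1
    exact (clo_mem (hgl g hg1) (hnew g hg1) (hgz g hg1)).1
  · intro g hg1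
    exact (clo_mem (hgl g hg1) (hnew g hg1) (hgz g hg1)).2
  · intro b hb
    show _ < S.k + 1
    have := h.lt b hb
    omega
  · intro b hb hbL
    by_cases hbT : b = T.2
    · subst hbT
      unfold tV
      simp only
      rw [if_pos (decide_eq_true hbL)]
      exact List.mem_cons_self
    · have h1 := h.finF b hb (fun h' => hbL ((htc b hbT).1 h'))
      unfold tV
      simp only
      split_ifs
      · exact List.mem_cons_of_mem _ h1
      · exact h1
  · intro p hp
    rcases hFcase p hp with ⟨rfl, h1⟩ | h1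
    · exact ⟨T.2, ha, h1, rfl⟩
    · obtain ⟨b, hb, hb1, hb2⟩ := h.Ffin p h1
      exact ⟨b, hb, hsub b hb1, hb2⟩
  · intro b hb hbL
    have h1 : b ∈ tch (T :: L) := by
      rw [tch_cons]
      exact Finset.mem_insert_of_mem hbL
    rcases h.live b hb h1 with h2 | h2
    · left
      unfold tV
      simp only
      split_ifs with h3
      · rw [List.mem_filter]
        refine ⟨h2, ?_⟩
        have h4 : φ b ≠ φ T.2 := by
          intro h5
          rw [hone b hb h5] at hbL
          exact (of_decide_eq_true h3) hbL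
        simpa using h4
      · exact h2
    · right
      exact List.mem_cons_of_mem _ h2
  · intro p hp
    obtain ⟨b, hb, hb1, hb2⟩ := h.Vlive p (hVsub p hp)
    refine ⟨b, hb, ?_, hb2⟩
    by_cases hbT : b = T.2
    · by_contra hbL
      rw [hbT] at hbL hb2
      unfold tV at hp
      simp only at hp
      rw [if_pos (decide_eq_true hbL), List.mem_filter, ← hb2] at hp
      simp at hp
    · exact (htc b hbT).1 hb1
  · intro b hb c hc hbc
    rcases h.uniq b hb c hc hbc with h1 | h1
    · exact Or.inl (List.mem_cons_of_mem _ h1)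
    · exact Or.inr h1
  · intro p hp hp'
    have hp1 : p = S.k ∨ p ∈ S.E := List.mem_cons.1 hp
    rcases hFcase p hp' with ⟨rfl, h1⟩ | h1
    · rcases hp1 with h2 | h2
      · omega
      · exact h.VE _ h2 hV
    · rcases hp1 with h2 | h2
      · have := h.F_lt _ h1
        omega
      · exact h.FE _ h2 h1
  · intro p hp hp'
    have hp1 : p = S.k ∨ p ∈ S.E := List.mem_cons.1 hp
    have h1 := hVsub p hp'
    rcases hp1 with h2 | h2
    · have := h.V_lt _ h1
      omega
    · exact h.VE _ h2 h1
  · intro p hp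
    have hp1 : p = S.k ∨ p ∈ S.E := List.mem_cons.1 hp
    show 0 < p ∧ p < S.k + 1
    rcases hp1 with h2 | h2
    · omega
    · have := h.Elt _ h2
      omega
  · exact List.mem_cons_self
  · unfold tV
    simp only
    split_ifs
    · rw [List.nodup_cons]
      exact ⟨hpF, h.nd⟩
    · exact h.nd
  · show S.k + 1 ≤ 16
    omega

theorem Sim.tE_step (h : Sim z C D (T :: L) S φ) (hg : Good z C D (T :: L)) (ha : T.2 ∈ D)
    (hE : φ T.2 ∈ S.E) (hk : S.k ≤ 14) :
    Sim z (nx C T) (insert T.2 D) L (tE S (φ T.2) (decide (T.2 ∉ tch L)))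
      (Function.update φ T.2 S.k) := by
  have hT := hg.star T List.mem_cons_self
  have hg' := hg.tail
  rw [Finset.insert_eq_self.2 ha] at hg' ⊢
  have hkp := h.kpos
  have hp0 := h.pos _ ha
  have hpk := h.lt _ ha
  have hTz : T.2 ≠ z := hT.2
  set ψ := Function.update φ T.2 S.k with hψ
  have hz : ψ z = 0 := by
    rw [hψ, Function.update_of_ne (fun h' => hT.2 h'.symm), h.z0]
  have hself : ψ T.2 = S.k := by
    rw [hψ, Function.update_self]
  have hne : ∀ b, b ≠ T.2 → ψ b = φ b := by
    intro b hb
    rw [hψ, Function.update_of_ne hb]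
  have hlt : ∀ f ∈ C, ∀ i, φ (f i) < 16 := by
    intro f hf i
    have := h.lt16 hg hf i
    omega
  set W := ren S.R 0 S.k with hW
  set R1 := tE1 S.R W (φ T.2) S.k with hR1
  have hR1' : R1 = S.R ||| (W ||| (mvs S.R (φ T.2) S.k ||| mvs W (φ T.2) 0)) := rfl
  have hWm : ∀ f ∈ C, Mem W (rep 0 S.k (fun i => φ (f i))) := by
    intro f hf
    exact mem_ren (by norm_num) (hlt f hf) (h.mem f hf) (fun i j hi hj => h.zuniq hg hf i j hi hj)
  -- the new configurations
  have hnew : ∀ g ∈ nx C T, Mem R1 (fun i => ψ (g i)) := by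
    rintro g ⟨f, hf, rfl | rfl⟩
    · by_cases hj : ∃ j, g j = T.2
      · obtain ⟨j, hj⟩ := hj
        have e1 : (fun i => ψ (g i)) = Function.update (fun i => φ (g i)) j S.k := by
          funext i
          by_cases hi : i = j
          · subst hi
            rw [Function.update_self, hj, hself]
          · rw [Function.update_of_ne hi, hne]
            exact fun h' => hi (hg.inj _ hf (h'.trans hj.symm))
        rw [e1, hR1', mem_or, mem_or, mem_or]
        exact Or.inr (Or.inr (Or.inl (mem_mvs j (hlt _ hf) (h.mem _ hf) (by rw [hj]))))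
      · push Not at hj
        have e1 : (fun i => ψ (g i)) = fun i => φ (g i) := funext fun i => hne _ (hj i)
        rw [e1, hR1', mem_or]
        exact Or.inl (h.mem _ hf)
    · have e0 : ∀ i, f i ≠ T.2 → ψ (Equiv.swap T.1 T.2 (f i)) = rep 0 S.k (fun i => φ (f i)) i := by
        intro i hi
        show _ = if φ (f i) = 0 then S.k else φ (f i)
        rw [hT.1]
        by_cases h0 : f i = z
        · rw [h0, Equiv.swap_apply_left, hself, if_pos h.z0]
        · rw [if_neg (fun h' => h0 ((h.zero_iff hg hf i).1 h')),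
            Equiv.swap_apply_of_ne_of_ne h0 hi, hne _ hi]
      by_cases hj : ∃ j, f j = T.2
      · obtain ⟨j, hj⟩ := hj
        have e1 : (fun i => ψ (Equiv.swap T.1 T.2 (f i))) =
            Function.update (rep 0 S.k (fun i => φ (f i))) j 0 := by
          funext i
          by_cases hi : i = j
          · subst hi
            rw [Function.update_self, hj, hT.1, Equiv.swap_apply_right, hz]
          · rw [Function.update_of_ne hi]
            exact e0 i (fun h' => hi (hg.inj f hf (h'.trans hj.symm)))
        show Mem R1 (fun i => ψ (Equiv.swap T.1 T.2 (f i)))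
        rw [e1, hR1', mem_or, mem_or, mem_or]
        refine Or.inr (Or.inr (Or.inr (mem_mvs j (rep_lt (by omega) (hlt f hf)) (hWm f hf) ?_)))
        show (if φ (f j) = 0 then S.k else φ (f j)) = φ T.2
        rw [hj, if_neg (by omega)]
      · push Not at hj
        have e1 : (fun i => ψ (Equiv.swap T.1 T.2 (f i))) = rep 0 S.k (fun i => φ (f i)) :=
          funext fun i => e0 i (hj i)
        show Mem R1 (fun i => ψ (Equiv.swap T.1 T.2 (f i)))
        rw [e1, hR1', mem_or, mem_or]
        exact Or.inr (Or.inl (hWm f hf))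
  have hpos' : ∀ b ∈ D, 0 < ψ b := by
    intro b hb
    by_cases hbT : b = T.2
    · rw [hbT, hself]
      exact hkp
    · rw [hne b hbT]
      exact h.pos b hb
  have hlt' : ∀ b ∈ D, ψ b < S.k + 1 := by
    intro b hb
    by_cases hbT : b = T.2
    · rw [hbT, hself]
      omega
    · rw [hne b hbT]
      have := h.lt b hb
      omega
  have hgl : ∀ g ∈ nx C T, ∀ i, ψ (g i) < 16 := by
    intro g hg1 i
    rcases hg'.rg g hg1 i with h1 | h1
    · rw [h1, hz]
      norm_num
    · have := hlt' _ h1
      omega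
  have hgz : ∀ g ∈ nx C T, ∀ i j, ψ (g i) = 0 → ψ (g j) = 0 → i = j := by
    intro g hg1 i j hi hj
    have h1 : ∀ l, ψ (g l) = 0 → g l = z := by
      intro l hl
      rcases hg'.rg g hg1 l with h2 | h2
      · exact h2
      · have := hpos' _ h2
        omega
    exact hg'.inj g hg1 ((h1 i hi).trans (h1 j hj).symm)
  have htc : ∀ b, b ≠ T.2 → (b ∈ tch (T :: L) ↔ b ∈ tch L) := by
    intro b hb
    rw [tch_cons, Finset.mem_insert]
    exact ⟨fun h1 => h1.resolve_left hb, Or.inr⟩
  have hTt : T.2 ∈ tch (T :: L) := by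
    rw [tch_cons]
    exact Finset.mem_insert_self _ _
  have hFcase : ∀ p ∈ (tE S (φ T.2) (decide (T.2 ∉ tch L))).F, (p = S.k ∧ T.2 ∉ tch L) ∨
      p ∈ S.F := by
    intro p hp
    unfold tE at hp
    simp only at hp
    split_ifs at hp with h1
    · rw [List.mem_cons] at hp
      rcases hp with hp | hp
      · exact Or.inl ⟨hp, of_decide_eq_true h1⟩
      · exact Or.inr hp
    · exact Or.inr hp
  have hVcase : ∀ p ∈ (tE S (φ T.2) (decide (T.2 ∉ tch L))).V, (p = S.k ∧ T.2 ∈ tch L) ∨
      p ∈ S.V := by
    intro p hp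
    unfold tE at hp
    simp only at hp
    split_ifs at hp with h1
    · exact Or.inr hp
    · rw [List.mem_cons] at hp
      rcases hp with hp | hp
      · refine Or.inl ⟨hp, ?_⟩
        by_contra h2
        exact h1 (decide_eq_true h2)
      · exact Or.inr hp
  refine ⟨hz, ?_, ?_, hpos', ?_, ?_, ?_, ?_, ?_, ?_, ?_, ?_, ?_, ?_, ?_, ?_⟩
  · intro g hg1
    exact (clo_mem (hgl g hg1) (hnew g hg1) (hgz g hg1)).1
  · intro g hg1
    exact (clo_mem (hgl g hg1) (hnew g hg1) (hgz g hg1)).2
  · intro b hb
    show _ < S.k + 2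
    have := hlt' b hb
    omega
  · intro b hb hbL
    by_cases hbT : b = T.2
    · subst hbT
      rw [hself]
      unfold tE
      simp only
      rw [if_pos (decide_eq_true hbL)]
      exact List.mem_cons_self
    · have h1 := h.finF b hb (fun h' => hbL ((htc b hbT).1 h'))
      rw [hne b hbT]
      unfold tE
      simp only
      split_ifs
      · exact List.mem_cons_of_mem _ h1
      · exact h1
  · intro p hp
    rcases hFcase p hp with ⟨rfl, h1⟩ | h1
    · exact ⟨T.2, ha, h1, hself⟩
    · obtain ⟨b, hb, hb1, hb2⟩ := h.Ffin p h1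
      have hbT : b ≠ T.2 := fun h' => hb1 (h' ▸ hTt)
      exact ⟨b, hb, fun h' => hb1 ((htc b hbT).2 h'), by rw [hne b hbT, hb2]⟩
  · intro b hb hbL
    by_cases hbT : b = T.2
    · subst hbT
      rw [hself]
      left
      unfold tE
      simp only
      rw [if_neg (by simpa using hbL)]
      exact List.mem_cons_self
    · rw [hne b hbT]
      rcases h.live b hb ((htc b hbT).2 hbL) with h2 | h2
      · left
        unfold tE
        simp only
        split_ifs
        · exact h2
        · exact List.mem_cons_of_mem _ h2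
      · right
        exact List.mem_cons_of_mem _ h2
  · intro p hp
    rcases hVcase p hp with ⟨rfl, h1⟩ | h1
    · exact ⟨T.2, ha, h1, hself⟩
    · obtain ⟨b, hb, hb1, hb2⟩ := h.Vlive p h1
      have hbT : b ≠ T.2 := by
        rintro rfl
        rw [hb2] at hE
        exact h.VE _ hE h1
      exact ⟨b, hb, (htc b hbT).1 hb1, by rw [hne b hbT, hb2]⟩
  · intro b hb c hc hbc
    by_cases hbT : b = T.2
    · by_cases hcT : c = T.2
      · exact Or.inr (hbT.trans hcT.symm)
      · exfalso
        rw [hbT, hself, hne c hcT] at hbc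
        have := h.lt c hc
        omega
    · by_cases hcT : c = T.2
      · exfalso
        rw [hcT, hself, hne b hbT] at hbc
        have := h.lt b hb
        omega
      · rw [hne b hbT, hne c hcT] at hbc
        rw [hne b hbT]
        rcases h.uniq b hb c hc hbc with h1 | h1
        · exact Or.inl (List.mem_cons_of_mem _ h1)
        · exact Or.inr h1
  · intro p hp hp'
    have hp1 : p = S.k + 1 ∨ p ∈ S.E := List.mem_cons.1 hp
    rcases hFcase p hp' with ⟨rfl, h1⟩ | h1
    · rcases hp1 with h2 | h2
      · omega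
      · have := (h.Elt _ h2).2
        omega
    · rcases hp1 with h2 | h2
      · have := h.F_lt _ h1
        omega
      · exact h.FE _ h2 h1
  · intro p hp hp'
    have hp1 : p = S.k + 1 ∨ p ∈ S.E := List.mem_cons.1 hp
    rcases hVcase p hp' with ⟨rfl, h1⟩ | h1
    · rcases hp1 with h2 | h2
      · omega
      · have := (h.Elt _ h2).2
        omega
    · rcases hp1 with h2 | h2
      · have := h.V_lt _ h1
        omega
      · exact h.VE _ h2 h1
  · intro p hp
    have hp1 : p = S.k + 1 ∨ p ∈ S.E := List.mem_cons.1 hp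
    show 0 < p ∧ p < S.k + 2
    rcases hp1 with h2 | h2
    · omega
    · have := h.Elt _ h2
      omega
  · exact List.mem_cons_self
  · unfold tE
    simp only
    split_ifs
    · rw [List.nodup_cons]
      refine ⟨fun h' => ?_, h.nd⟩
      have := h.F_lt _ h'
      omega
    · exact h.nd
  · show S.k + 2 ≤ 16
    omega

end ReachNet.Ex
end

section

/-!
# Star networks with three counters: the search bounds the length
-/

set_option autoImplicit false

namespace ReachNet.Ex

variable {n : ℕ}

variable {z : Fin n} {C : Set (Fin 3 → Fin n)} {D : Finset (Fin n)} {T : Fin n × Fin n}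
  {L : List (Fin n × Fin n)} {S : St} {φ : Fin n → ℕ}

/-- The label `i` of the placement `x` is on a finished leaf with the number `p`, or `p` is
missing and it is on a position which is not finished. -/
def Pat (D : Finset (Fin n)) (L : List (Fin n × Fin n)) (S : St) (φ : Fin n → ℕ)
    (x : Fin 3 → Fin n) (i : Fin 3) (m : ℕ) : Prop :=
  (∃ p ∈ S.F, x i ∈ D ∧ x i ∉ tch L ∧ φ (x i) = p ∧ m = mask i p) ∨
    (¬ (x i ∈ D ∧ x i ∉ tch L) ∧ m = out i S.F)

theorem pat_ne (h : Sim z C D L S φ) (hg : Good z C D L) (x : Fin 3 → Fin n)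
    (hx : Function.Injective x) {m0 m1 m2 : ℕ} (h0 : Pat D L S φ x 0 m0)
    (h1 : Pat D L S φ x 1 m1) (h2 : Pat D L S φ x 2 m2) :
    S.R &&& m0 &&& m1 &&& m2 ≠ 0 := by
  obtain ⟨f, hf, hr⟩ := hg.net x hx
  have hlt : ∀ i, φ (f i) < 16 := by
    intro i
    have h3 := h.lt16 hg hf i
    have h4 := h.k16
    omega
  have hF16 : ∀ p ∈ S.F, p < 16 := by
    intro p hp
    have h3 := h.F_lt p hp
    have h4 := h.k16
    omega
  have key : ∀ (i : Fin 3) (m : ℕ), Pat D L S φ x i m → Mem m (fun j => φ (f j)) := by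
    intro i m hm
    rcases hm with ⟨p, hp, hD, hL, hφ, hmm⟩ | ⟨hnot, hmm⟩
    · rw [hmm, mask_iff i (hF16 p hp) hlt]
      have h3 : x i ≠ z := fun h' => hg.zD (h' ▸ hD)
      have h4 := (fin_iff hg.star hr h3 hL i).2 rfl
      rw [h4, hφ]
    · rw [hmm]
      apply mem_out i hF16 hlt
      intro hmem
      obtain ⟨b, hb, hbL, hbφ⟩ := h.Ffin _ hmem
      have hfb : f i = b := by
        rcases hg.rg f hf i with h3 | h3
        · exfalso
          rw [h3, h.z0] at hmem
          exact h.F_notMem_zero hmem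
        · rcases h.uniq b hb _ h3 hbφ with h4 | h4
          · rw [hbφ] at h4
            exact absurd hmem (h.FE _ h4)
          · exact h4.symm
      have hbz : b ≠ z := fun h' => hg.zD (h' ▸ hb)
      have h5 := (fin_iff hg.star hr hbz hbL i).1 hfb
      rw [h5] at hnot
      exact hnot ⟨hb, hbL⟩
  have hall : Mem (S.R &&& m0 &&& m1 &&& m2) (fun j => φ (f j)) :=
    mem_and.2 ⟨mem_and.2 ⟨mem_and.2 ⟨h.mem f hf, key 0 _ h0⟩, key 1 _ h1⟩, key 2 _ h2⟩
  intro h3
  rw [h3] at hall
  unfold Mem at hall
  rw [Nat.zero_testBit] at hall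
  exact Bool.noConfusion hall

/-- The finished leaf with a given number. -/
theorem Sim.fin_pos (h : Sim z C D L S φ) (hg : Good z C D L) {p : ℕ} (hp : p ∈ S.F) :
    ∃ a, a ≠ z ∧ a ∈ D ∧ a ∉ tch L ∧ φ a = p := by
  obtain ⟨a, ha, haL, hφ⟩ := h.Ffin p hp
  exact ⟨a, fun h' => hg.zD (h' ▸ ha), ha, haL, hφ⟩

theorem not_bad (hn : 3 ≤ n) {Nmin : ℕ} (hN : Nmin ≤ n) (h : Sim z C D L S φ)
    (hg : Good z C D L) : bad Nmin S ≠ true := by
  intro hb
  unfold bad at hb
  rw [Bool.or_eq_true] at hb
  have hzP : ∀ (x : Fin 3 → Fin n) (i : Fin 3), x i = z → Pat D L S φ x i (out i S.F) := by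
    intro x i hi
    refine Or.inr ⟨?_, rfl⟩
    rw [hi]
    exact fun h' => hg.zD h'.1
  rcases hb with hb | hb
  · rw [List.any_eq_true] at hb
    obtain ⟨p, hp, hb⟩ := hb
    rw [List.any_eq_true] at hb
    obtain ⟨q, hq, hb⟩ := hb
    rw [Bool.and_eq_true] at hb
    obtain ⟨hpq, hb⟩ := hb
    have hpq' : p ≠ q := by simpa using hpq
    obtain ⟨a, ha, haD, haL, haφ⟩ := h.fin_pos hg hp
    obtain ⟨b, hb', hbD, hbL, hbφ⟩ := h.fin_pos hg hq
    have hab : a ≠ b := by
      rintro rfl
      exact hpq' (haφ.symm.trans hbφ)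
    simp only [Bool.or_eq_true, beq_iff_eq, List.any_eq_true, Bool.and_eq_true] at hb
    rcases hb with ((hb | hb) | hb) | ⟨r, hr, ⟨hpr, hqr⟩, hb⟩
    · exact pat_ne h hg ![a, b, z] (inj3 hab ha hb') (Or.inl ⟨p, hp, haD, haL, haφ, rfl⟩)
        (Or.inl ⟨q, hq, hbD, hbL, hbφ, rfl⟩) (hzP _ 2 rfl) hb
    · exact pat_ne h hg ![a, z, b] (inj3 ha hab hb'.symm) (Or.inl ⟨p, hp, haD, haL, haφ, rfl⟩)
        (hzP _ 1 rfl) (Or.inl ⟨q, hq, hbD, hbL, hbφ, rfl⟩) hb
    · exact pat_ne h hg ![z, a, b] (inj3 ha.symm hb'.symm hab) (hzP _ 0 rfl)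
        (Or.inl ⟨p, hp, haD, haL, haφ, rfl⟩) (Or.inl ⟨q, hq, hbD, hbL, hbφ, rfl⟩) hb
    · obtain ⟨c, hc, hcD, hcL, hcφ⟩ := h.fin_pos hg hr
      have hpr' : p ≠ r := by simpa using hpr
      have hqr' : q ≠ r := by simpa using hqr
      have hac : a ≠ c := by
        rintro rfl
        exact hpr' (haφ.symm.trans hcφ)
      have hbc : b ≠ c := by
        rintro rfl
        exact hqr' (hbφ.symm.trans hcφ)
      exact pat_ne h hg ![a, b, c] (inj3 hab hac hbc) (Or.inl ⟨p, hp, haD, haL, haφ, rfl⟩)
        (Or.inl ⟨q, hq, hbD, hbL, hbφ, rfl⟩) (Or.inl ⟨r, hr, hcD, hcL, hcφ, rfl⟩) hb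
  · rw [Bool.and_eq_true, decide_eq_true_eq, List.any_eq_true] at hb
    obtain ⟨hlen, p, hp, hb⟩ := hb
    obtain ⟨a, ha, haD, haL, haφ⟩ := h.fin_pos hg hp
    -- a leaf which is not finished
    have hcard := h.card hn hg
    have hne : (tch L).Nonempty := by
      rw [← Finset.card_pos]
      omega
    obtain ⟨c, hc⟩ := hne
    have hcz : c ≠ z := by
      obtain ⟨T, hT, rfl⟩ := mem_tch.1 hc
      exact (hg.star T hT).2
    have hac : a ≠ c := by
      rintro rfl
      exact haL hc
    have hcP : ∀ (x : Fin 3 → Fin n) (i : Fin 3), x i = c → Pat D L S φ x i (out i S.F) := by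
      intro x i hi
      refine Or.inr ⟨?_, rfl⟩
      rw [hi]
      exact fun h' => h'.2 hc
    simp only [Bool.or_eq_true, beq_iff_eq] at hb
    rcases hb with (hb | hb) | hb
    · exact pat_ne h hg ![a, c, z] (inj3 hac ha hcz) (Or.inl ⟨p, hp, haD, haL, haφ, rfl⟩)
        (hcP _ 1 rfl) (hzP _ 2 rfl) hb
    · exact pat_ne h hg ![c, a, z] (inj3 hac.symm hcz ha) (hcP _ 0 rfl)
        (Or.inl ⟨p, hp, haD, haL, haφ, rfl⟩) (hzP _ 2 rfl) hb
    · exact pat_ne h hg ![c, z, a] (inj3 hcz hac.symm ha.symm) (hcP _ 0 rfl)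
        (hzP _ 1 rfl) (Or.inl ⟨p, hp, haD, haL, haφ, rfl⟩) hb

theorem not_final (hn : 3 ≤ n) {Nmin : ℕ} (hN : Nmin ≤ n) (h : Sim z C D [] S φ)
    (hg : Good z C D []) : finalOK Nmin S ≠ true := by
  intro hb
  unfold finalOK at hb
  simp only [Bool.or_eq_true] at hb
  have hcard := h.card hn hg
  rw [tch_nil, Finset.card_empty] at hcard
  rcases hb with (hb | hb) | hb
  · have hV : S.V = [] := by
      rw [List.eq_nil_iff_forall_not_mem]
      intro p hp
      obtain ⟨a, -, ha, -⟩ := h.Vlive p hp
      rw [tch_nil] at ha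
      exact absurd ha (Finset.notMem_empty _)
    rw [hV] at hb
    simp at hb
  · rw [decide_eq_true_eq] at hb
    omega
  · -- the position with a given number
    have hpos : ∀ p ∈ 0 :: S.F, ∃ a, φ a = p := by
      intro p hp
      rw [List.mem_cons] at hp
      rcases hp with rfl | hp
      · exact ⟨z, h.z0⟩
      · obtain ⟨a, -, -, -, ha⟩ := h.fin_pos hg hp
        exact ⟨a, ha⟩
    rw [List.any_eq_true] at hb
    obtain ⟨p, hp, hb⟩ := hb
    rw [List.any_eq_true] at hb
    obtain ⟨q, hq, hb⟩ := hb
    rw [List.any_eq_true] at hb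
    obtain ⟨r, hr, hb⟩ := hb
    simp only [Bool.and_eq_true, bne_iff_ne, ne_eq, Bool.not_eq_true'] at hb
    obtain ⟨⟨⟨hpq, hpr⟩, hqr⟩, hb⟩ := hb
    obtain ⟨a, rfl⟩ := hpos p hp
    obtain ⟨b, rfl⟩ := hpos q hq
    obtain ⟨c, rfl⟩ := hpos r hr
    have hab : a ≠ b := fun h' => hpq (by rw [h'])
    have hac : a ≠ c := fun h' => hpr (by rw [h'])
    have hbc : b ≠ c := fun h' => hqr (by rw [h'])
    obtain ⟨f, hf, M, hM, hm⟩ := hg.net ![a, b, c] (inj3 hab hac hbc)
    rw [List.sublist_nil] at hM
    subst hM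
    have h1 := h.mem f hf
    have e0 : f 0 = a := hm 0
    have e1 : f 1 = b := hm 1
    have e2 : f 2 = c := hm 2
    have h2 : S.R.testBit (256 * φ (f 0) + 16 * φ (f 1) + φ (f 2)) = true := h1
    rw [e0, e1, e2, hb] at h2
    exact Bool.noConfusion h2

theorem ovb_bound (hn : 3 ≤ n) {B : ℕ} (h : Sim z C D L S φ) (hg : Good z C D L)
    (ho : ovb B S = true) : B + 1 + 2 * (n - 1) ≤ 3 * (S.m + ful D L) := by
  unfold ovb at ho
  rw [decide_eq_true_eq] at ho
  have h1 := (pot hn L C D hg).1
  have h2 := h.card hn hg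
  omega

/-- **The search bounds the number of full letters.** -/
theorem main_bound (hn : 3 ≤ n) {B Nmin : ℕ} (hN : Nmin ≤ n) :
    ∀ (L : List (Fin n × Fin n)) (C : Set (Fin 3 → Fin n)) (D : Finset (Fin n)) (S : St)
      (φ : Fin n → ℕ) (fuel : ℕ), Good z C D L → Sim z C D L S φ →
      search B Nmin fuel S = true → B + 1 + 2 * (n - 1) ≤ 3 * (S.m + ful D L) := by
  intro L
  induction L with
  | nil =>
    intro C D S φ fuel hg h hs
    cases fuel with
    | zero => exact absurd hs (by unfold search; simp)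
    | succ fuel =>
      rcases search_succ hs with h1 | h1 | ⟨-, h1, -, -⟩
      · exact ovb_bound hn h hg h1
      · exact absurd h1 (not_bad hn hN h hg)
      · exact absurd h1 (not_final hn hN h hg)
  | cons T L ih =>
    intro C D S φ fuel hg h hs
    cases fuel with
    | zero => exact absurd hs (by unfold search; simp)
    | succ fuel =>
      rcases search_succ hs with h1 | h1 | ⟨hk, -, hslot, hrest⟩
      · exact ovb_bound hn h hg h1
      · exact absurd h1 (not_bad hn hN h hg)
      · have hg' := hg.tail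
        rw [ful_cons]
        by_cases ha : T.2 ∈ D
        · rw [if_pos ha]
          rcases hrest with h2 | ⟨hk', hV, hE⟩
          · have h3 := (pot hn L _ _ hg').1
            have h4 := h.card hn hg
            rw [tch_cons] at h4
            have h5 := Finset.card_insert_le T.2 (tch L)
            omega
          · have hT : T.2 ∈ tch (T :: L) := by
              rw [tch_cons]
              exact Finset.mem_insert_self _ _
            rcases h.live _ ha hT with h2 | h2
            · have := ih _ _ _ _ _ hg' (h.tV_step hg ha h2 hk) (hV _ h2 _)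
              have hm : (tV S (φ T.2) (decide (T.2 ∉ tch L))).m = S.m + 1 := rfl
              rw [hm] at this
              omega
            · have := ih _ _ _ _ _ hg' (h.tE_step hg ha h2 hk') (hE _ h2 _)
              have hm : (tE S (φ T.2) (decide (T.2 ∉ tch L))).m = S.m + 1 := rfl
              rw [hm] at this
              omega
        · rw [if_neg ha]
          by_cases hb : T.2 ∈ tch L
          · have := ih _ _ _ _ _ hg' (h.open_step hg ha hb) hs
            omega
          · have := ih _ _ _ _ _ hg' (h.slot_step hg ha hb hk) hslot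
            have hm : (slot S).m = S.m := rfl
            rw [hm] at this
            omega

/-- **The lower bound for the length.** -/
theorem length_bound (hn : 3 ≤ n) {B Nmin : ℕ} (hN : Nmin ≤ n)
    (hs : search B Nmin 20 start = true) (L : List (Fin n × Fin n)) (hL : IsNet hn L)
    (hstar : ∀ T ∈ L, T.1.val = 0) : B + 5 * n ≤ 3 * L.length + 10 := by
  set z : Fin n := ⟨0, by omega⟩ with hz
  set p1 : Fin n := ⟨1, by omega⟩ with hp1
  set p2 : Fin n := ⟨2, by omega⟩ with hp2
  have hz1 : z ≠ p1 := by simp [hz, hp1]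
  have hz2 : z ≠ p2 := by simp [hz, hp2]
  have h12 : p1 ≠ p2 := by simp [hp1, hp2]
  set f0 : Fin 3 → Fin n := ![z, p1, p2] with hf0
  have hf0' : ∀ i, Fin.castLE hn i = f0 i := by
    intro i
    fin_cases i <;> rfl
  set C : Set (Fin 3 → Fin n) := {f0} with hC
  set D : Finset (Fin n) := {p1, p2} with hD
  have hg : Good z C D L := by
    refine ⟨?_, ?_, ?_, ?_, ?_⟩
    · intro T hT
      have h1 : T.1 = z := Fin.ext (hstar T hT)
      refine ⟨h1, fun h2 => hL.1 T hT (h1.trans h2.symm)⟩
    · intro f hf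
      rw [hC, Set.mem_singleton_iff] at hf
      rw [hf]
      exact inj3 hz1 hz2 h12
    · intro f hf i
      rw [hC, Set.mem_singleton_iff] at hf
      rw [hf]
      fin_cases i
      · exact Or.inl rfl
      · right
        show p1 ∈ ({p1, p2} : Finset (Fin n))
        simp
      · right
        show p2 ∈ ({p1, p2} : Finset (Fin n))
        simp
    · rw [hD]
      simp [hz1, hz2]
    · intro x hx
      obtain ⟨M, hM, hm⟩ := hL.2 x hx
      refine ⟨f0, rfl, M, hM, fun i => ?_⟩
      rw [← hm i, hf0' i]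
  have hD' : ∀ a ∈ D, a = p1 ∨ a = p2 := by
    intro a ha
    rw [hD, Finset.mem_insert, Finset.mem_singleton] at ha
    exact ha
  -- the leaves 1 and 2 are touched
  have ht : ∀ a ∈ D, a ∈ tch L := by
    intro a ha
    by_contra hnot
    have haz : a ≠ z := by
      rcases hD' a ha with rfl | rfl
      · exact hz1.symm
      · exact hz2.symm
    obtain ⟨f, hf, hr⟩ := hg.net ![a, z, if a = p1 then p2 else p1] (by
      rcases hD' a ha with rfl | rfl
      · rw [if_pos rfl]
        exact inj3 haz h12 hz2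
      · rw [if_neg h12.symm]
        exact inj3 haz h12.symm hz1)
    have h1 := (fin_iff hg.star hr haz hnot 0).2 rfl
    rw [hC, Set.mem_singleton_iff] at hf
    rw [hf] at h1
    exact haz h1.symm
  set φ : Fin n → ℕ := fun a => a.val with hφ
  have hsim : Sim z C D L start φ := by
    refine ⟨rfl, ?_, ?_, ?_, ?_, ?_, ?_, ?_, ?_, ?_, ?_, ?_, ?_, ?_, ?_, ?_⟩
    · intro f hf
      rw [hC, Set.mem_singleton_iff] at hf
      rw [hf]
      show (2 ^ 18 ||| 2 ^ (768 + 18)).testBit (256 * 0 + 16 * 1 + 2) = true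
      decide +kernel
    · intro f hf
      rw [hC, Set.mem_singleton_iff] at hf
      rw [hf]
      show (2 ^ 18 ||| 2 ^ (768 + 18)).testBit (256 * 3 + 16 * 1 + 2) = true
      decide +kernel
    · intro a ha
      rcases hD' a ha with rfl | rfl <;> simp [hφ, hp1, hp2]
    · intro a ha
      show _ < 4
      rcases hD' a ha with rfl | rfl <;> simp [hφ, hp1, hp2]
    · intro a ha hnot
      exact absurd (ht a ha) hnot
    · intro p hp
      exact absurd hp List.not_mem_nil
    · intro a ha _
      left
      show _ ∈ [1, 2]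
      rcases hD' a ha with rfl | rfl <;> simp [hφ, hp1, hp2]
    · intro p hp
      have hp' : p = 1 ∨ p = 2 := by
        have : p ∈ [1, 2] := hp
        simpa using this
      rcases hp' with rfl | rfl
      · exact ⟨p1, by simp [hD], ht _ (by simp [hD]), rfl⟩
      · exact ⟨p2, by simp [hD], ht _ (by simp [hD]), rfl⟩
    · intro a ha b hb hab
      exact Or.inr (Fin.ext hab)
    · intro p hp
      exact List.not_mem_nil
    · intro p hp hp'
      have h1 : p ∈ [3] := hp
      have h2 : p ∈ [1, 2] := hp'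
      simp at h1 h2
      omega
    · intro p hp
      have h1 : p ∈ [3] := hp
      show 0 < p ∧ p < 4
      simp at h1
      omega
    · show 3 ∈ [3]
      simp
    · exact List.nodup_nil
    · show 4 ≤ 16
      norm_num
  have h1 := main_bound hn hN L C D start φ 20 hg hsim hs
  have h2 := length_eq L D
  -- all the leaves from 3 on are touched
  have h3 : n - 3 ≤ (tch L \ D).card := by
    have e1 : ((Finset.univ.erase z) \ D) ⊆ tch L \ D := by
      intro b hb
      rw [Finset.mem_sdiff, Finset.mem_erase] at hb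
      rw [Finset.mem_sdiff]
      exact ⟨(hg.mem_or hn hb.1.1).resolve_left hb.2, hb.2⟩
    have e2 := Finset.card_le_card e1
    have e3 : D ⊆ Finset.univ.erase z := by
      intro b hb
      rw [Finset.mem_erase]
      exact ⟨fun h' => hg.zD (h' ▸ hb), Finset.mem_univ _⟩
    rw [Finset.card_sdiff_of_subset e3, Finset.card_erase_of_mem (Finset.mem_univ _),
      Finset.card_univ, Fintype.card_fin] at e2
    have e4 : D.card = 2 := by
      rw [hD]
      exact Finset.card_pair h12
    omega
  have h4 : start.m = 0 := rfl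
  rw [h4] at h1
  omega

end ReachNet.Ex
end
end
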