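import Pool.Agent.Lib.MP_720f8f_co.Defs
import Pool.Agent.Lib.MP_720f8f_co.Lower
import Pool.Agent.Lib.MP_720f8f_co.Exact.Mach

section

/-!
# Star networks with three counters on 3, 4 and 5 positions
-/

set_option autoImplicit false
set_option maxRecDepth 100000

namespace ReachNet.Ex

/-- A word as a list of transpositions. -/
def wrd (n : ℕ) [NeZero n] (w : List ℕ) : List (Fin n × Fin n) :=
  w.map fun a => (0, Fin.ofNat n a)

/-- A finite check for networks with three counters. -/
theorem isNet_of {n : ℕ} (h : 3 ≤ n) (L : List (Fin n × Fin n)) (h1 : ∀ T ∈ L, T.1 ≠ T.2)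
    (h2 : ∀ x y z : Fin n, x ≠ y → x ≠ z → y ≠ z → ∃ M ∈ L.sublists,
      move M (Fin.castLE h 0) = x ∧ move M (Fin.castLE h 1) = y ∧ move M (Fin.castLE h 2) = z) :
    IsNet h L := by
  refine ⟨h1, fun x hx => ?_⟩
  obtain ⟨M, hM, a, b, c⟩ := h2 (x 0) (x 1) (x 2) (fun h' => absurd (hx h') (by decide))
    (fun h' => absurd (hx h') (by decide)) (fun h' => absurd (hx h') (by decide))
  refine ⟨M, List.mem_sublists.1 hM, fun j => ?_⟩
  fin_cases j
  · exact a
  · exact b
  · exact c

theorem net3 : IsNet (t := 3) (n := 3) (by norm_num) (wrd 3 [1, 2, 1]) :=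
  isNet_of _ _ (by decide +kernel) (by decide +kernel)

theorem net4 : IsNet (t := 3) (n := 4) (by norm_num) (wrd 4 [1, 2, 1, 3, 1, 2]) :=
  isNet_of _ _ (by decide +kernel) (by decide +kernel)

theorem net5 : IsNet (t := 3) (n := 5) (by norm_num) (wrd 5 [1, 2, 1, 3, 1, 4, 2, 1]) :=
  isNet_of _ _ (by decide +kernel) (by decide +kernel)

end ReachNet.Ex
end

section

/-!
# Star networks with three counters: the construction

The positions are `0, ..., n - 1`, the centre is `0`. The letter `a` stands for the transposition
`(0, a)`. The positions from `3` on are divided into slots, first wires and second wires.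
-/

set_option autoImplicit false
set_option linter.unusedSimpArgs false

open Finset

namespace ReachNet

namespace ST

/-- Apply the letters of `M` to the position `x`, the first letter first. -/
def mv (M : List ℕ) (x : ℕ) : ℕ :=
  M.foldl (fun y a => if y = 0 then a else if y = a then 0 else y) x

@[simp] theorem mv_nil (x : ℕ) : mv [] x = x := rfl

theorem mv_cons (a : ℕ) (M : List ℕ) (x : ℕ) :
    mv (a :: M) x = mv M (if x = 0 then a else if x = a then 0 else x) := rfl

theorem mv_append (M N : List ℕ) (x : ℕ) : mv (M ++ N) x = mv N (mv M x) := by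
  unfold mv
  rw [List.foldl_append]

/-- An increasing list of numbers with the property `p`. -/
theorem sub_filter {n : ℕ} (p : ℕ → Bool) (l : List ℕ) (hl : l.Pairwise (· < ·))
    (hp : ∀ x ∈ l, p x = true ∧ x < n) : l.Sublist ((List.range n).filter p) := by
  have h1 : l.Sublist (List.range n) := by
    apply List.sublist_of_subperm_of_pairwise (r := (· < ·))
    · apply List.subperm_of_subset
      · exact hl.imp (fun h => ne_of_lt h)
      · intro x hx
        exact List.mem_range.2 (hp x hx).2
    · exact hl
    · exact List.pairwise_lt_range
  have h2 := h1.filter p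
  rwa [List.filter_eq_self.2 (fun x hx => (hp x hx).1)] at h2

section

variable (n : ℕ)

/-- The slots. -/
def isS (x : ℕ) : Bool :=
  decide (3 ≤ x) && (if n % 3 = 2 then decide (x % 3 = 2) else
    (decide (x % 3 = 0) && decide (x + 1 ≠ n)))

/-- The first wires. -/
def isC (x : ℕ) : Bool :=
  decide (3 ≤ x) && (if n % 3 = 2 then decide (x % 3 = 0) else
    (decide (x % 3 = 1) || (decide (x % 3 = 0) && decide (x + 1 = n))))

/-- The second wires. -/
def isD (x : ℕ) : Bool :=
  decide (3 ≤ x) && (if n % 3 = 2 then decide (x % 3 = 1) else decide (x % 3 = 2))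

/-- The block of the first wires. -/
def bC : List ℕ := (List.range n).filter (isC n)

/-- The block of the second wires. -/
def bD : List ℕ := (List.range n).filter (isD n)

/-- The last block. -/
def bL : List ℕ := (List.range n).filter (fun x => decide (3 ≤ x))

/-- The word without its first three letters. -/
def wd : List ℕ := bC n ++ ([1] ++ (bD n ++ ([2] ++ bL n)))

theorem isS_succ {x : ℕ} (h : isS n x = true) (hx : x < n) :
    isC n (x + 1) = true ∧ isD n (x + 2) = true ∧ x + 2 < n := by
  unfold isS at h
  unfold isC isD
  split_ifs at h ⊢ <;> simp only [Bool.and_eq_true, decide_eq_true_eq, Bool.or_eq_true] at h ⊢ <;>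
    omega

theorem isD_pred {x : ℕ} (h : isD n x = true) : isC n (x - 1) = true ∧ 4 ≤ x := by
  unfold isD at h
  unfold isC
  split_ifs at h ⊢ <;> simp only [Bool.and_eq_true, decide_eq_true_eq, Bool.or_eq_true] at h ⊢ <;>
    omega

theorem isC_succ {x : ℕ} (h : isC n x = true) (hx : x + 1 < n) : isD n (x + 1) = true := by
  unfold isC at h
  unfold isD
  split_ifs at h ⊢ <;> simp only [Bool.and_eq_true, decide_eq_true_eq, Bool.or_eq_true] at h ⊢ <;>
    omega

theorem isC_last {x : ℕ} (hn : 6 ≤ n) (h : isC n x = true) (hx : x + 1 = n) :
    isD n (x - 1) = true := by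
  unfold isC at h
  unfold isD
  split_ifs at h ⊢ <;> simp only [Bool.and_eq_true, decide_eq_true_eq, Bool.or_eq_true] at h ⊢ <;>
    omega

theorem isS_pred {x : ℕ} (h : isS n x = true) (hx : 4 ≤ x) : isD n (x - 1) = true := by
  unfold isS at h
  unfold isD
  split_ifs at h ⊢ <;> simp only [Bool.and_eq_true, decide_eq_true_eq, Bool.or_eq_true] at h ⊢ <;>
    omega

theorem kind {x : ℕ} (h : 3 ≤ x) : isS n x = true ∨ isC n x = true ∨ isD n x = true := by
  unfold isS isC isD
  split_ifs <;> simp only [Bool.and_eq_true, decide_eq_true_eq, Bool.or_eq_true] <;> omega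

theorem isC_ge {x : ℕ} (h : isC n x = true) : 3 ≤ x := by
  unfold isC at h
  rw [Bool.and_eq_true, decide_eq_true_eq] at h
  exact h.1

theorem isS_notC {x : ℕ} (h : isS n x = true) : ¬ isC n x = true := by
  unfold isS at h
  unfold isC
  split_ifs at h ⊢ <;> simp only [Bool.and_eq_true, decide_eq_true_eq, Bool.or_eq_true] at h ⊢ <;>
    omega

end

variable {n : ℕ}

theorem mv0 (a : ℕ) (M : List ℕ) : mv (a :: M) 0 = mv M a := by
  rw [mv_cons, if_pos rfl]

theorem mvs (x : ℕ) (M : List ℕ) (h : x ≠ 0) : mv (x :: M) x = mv M 0 := by
  rw [mv_cons, if_neg h, if_pos rfl]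

theorem mvn (x a : ℕ) (M : List ℕ) (h : x ≠ 0) (h' : x ≠ a) : mv (a :: M) x = mv M x := by
  rw [mv_cons, if_neg h, if_neg h']

/-- Some subword moves the positions `0, 1, 2` into the set `{a, b, c}`. -/
def Hit (n a b c : ℕ) : Prop :=
  ∃ M : List ℕ, M.Sublist (wd n) ∧ ∀ j < 3, mv M j = a ∨ mv M j = b ∨ mv M j = c

theorem hit_of {a b c : ℕ} (p1 p2 p3 p4 p5 : List ℕ)
    (h1 : p1.Pairwise (· < ·)) (h1' : ∀ x ∈ p1, isC n x = true ∧ x < n)
    (h2 : p2.Sublist [1])
    (h3 : p3.Pairwise (· < ·)) (h3' : ∀ x ∈ p3, isD n x = true ∧ x < n)
    (h4 : p4.Sublist [2])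
    (h5 : p5.Pairwise (· < ·)) (h5' : ∀ x ∈ p5, 3 ≤ x ∧ x < n)
    (hj : ∀ j < 3, mv (p1 ++ (p2 ++ (p3 ++ (p4 ++ p5)))) j = a ∨
      mv (p1 ++ (p2 ++ (p3 ++ (p4 ++ p5)))) j = b ∨
      mv (p1 ++ (p2 ++ (p3 ++ (p4 ++ p5)))) j = c) : Hit n a b c := by
  refine ⟨_, ?_, hj⟩
  unfold wd
  refine (sub_filter _ _ h1 h1').append (h2.append ((sub_filter _ _ h3 h3').append
    (h4.append (sub_filter _ _ h5 ?_))))
  intro x hx
  simpa using h5' x hx

theorem hit012 : Hit n 0 1 2 := by
  refine hit_of [] [] [] [] [] (by simp) (by simp) (by simp) (by simp) (by simp) (by simp)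
    (by simp) (by simp) ?_
  intro j hj
  interval_cases j <;>
  simp (disch := omega) only [List.cons_append, List.nil_append, List.append_nil, mv0, mvs,
    mvn, mv_nil, true_or, or_true]

theorem hit01 {c : ℕ} (hc : 3 ≤ c) (hcn : c < n) : Hit n 0 1 c := by
  rcases kind n hc with h | h | h
  · obtain ⟨h1, h2, h3⟩ := isS_succ n h hcn
    refine hit_of [c + 1] [] [] [2] [c, c + 1] (by simp) (by simp; exact ⟨h1, by omega⟩)
      (by simp) (by simp) (by simp) (by simp) (by simp) (by simp; omega) ?_
    intro j hj
    interval_cases j <;>
    simp (disch := omega) only [List.cons_append, List.nil_append, List.append_nil, mv0, mvs,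
      mvn, mv_nil, true_or, or_true]
  · refine hit_of [c] [] [] [2] [] (by simp) (by simp; exact ⟨h, by omega⟩)
      (by simp) (by simp) (by simp) (by simp) (by simp) (by simp) ?_
    intro j hj
    interval_cases j <;>
    simp (disch := omega) only [List.cons_append, List.nil_append, List.append_nil, mv0, mvs,
      mvn, mv_nil, true_or, or_true]
  · refine hit_of [] [] [c] [2] [] (by simp) (by simp)
      (by simp) (by simp) (by simp; exact ⟨h, by omega⟩) (by simp) (by simp) (by simp) ?_
    intro j hj
    interval_cases j <;>
    simp (disch := omega) only [List.cons_append, List.nil_append, List.append_nil, mv0, mvs,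
      mvn, mv_nil, true_or, or_true]

theorem hit02 {c : ℕ} (hc : 3 ≤ c) (hcn : c < n) : Hit n 0 2 c := by
  rcases kind n hc with h | h | h
  · obtain ⟨h1, h2, h3⟩ := isS_succ n h hcn
    refine hit_of [c + 1] [1] [] [] [c, c + 1] (by simp) (by simp; exact ⟨h1, by omega⟩)
      (by simp) (by simp) (by simp) (by simp) (by simp) (by simp; omega) ?_
    intro j hj
    interval_cases j <;>
    simp (disch := omega) only [List.cons_append, List.nil_append, List.append_nil, mv0, mvs,
      mvn, mv_nil, true_or, or_true]
  · refine hit_of [c] [1] [] [] [] (by simp) (by simp; exact ⟨h, by omega⟩)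
      (by simp) (by simp) (by simp) (by simp) (by simp) (by simp) ?_
    intro j hj
    interval_cases j <;>
    simp (disch := omega) only [List.cons_append, List.nil_append, List.append_nil, mv0, mvs,
      mvn, mv_nil, true_or, or_true]
  · obtain ⟨h1, h2⟩ := isD_pred n h
    refine hit_of [c - 1] [1] [c] [] [c - 1] (by simp) (by simp; exact ⟨h1, by omega⟩)
      (by simp) (by simp) (by simp; exact ⟨h, by omega⟩) (by simp) (by simp) (by simp; omega) ?_
    intro j hj
    interval_cases j <;>
    simp (disch := omega) only [List.cons_append, List.nil_append, List.append_nil, mv0, mvs,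
      mvn, mv_nil, true_or, or_true]

theorem hit12 {c : ℕ} (hc : 3 ≤ c) (hcn : c < n) : Hit n 1 2 c := by
  refine hit_of [] [] [] [] [c] (by simp) (by simp)
    (by simp) (by simp) (by simp) (by simp) (by simp) (by simp; omega) ?_
  intro j hj
  interval_cases j <;>
  simp (disch := omega) only [List.cons_append, List.nil_append, List.append_nil, mv0, mvs,
    mvn, mv_nil, true_or, or_true]

theorem hit1 {b c : ℕ} (hb : 3 ≤ b) (hbc : b < c) (hcn : c < n) : Hit n 1 b c := by
  rcases kind n hb with h | h | h
  · obtain ⟨h1, h2, h3⟩ := isS_succ n h (by omega)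
    rcases kind n (show 3 ≤ c by omega) with g | g | g
    · have hne : c ≠ b + 1 := by
        rintro rfl
        exact isS_notC n g h1
      refine hit_of [b + 1] [] [] [2] [b, b + 1, c]
        ?_ ?_ ?_ ?_ ?_ ?_ ?_ ?_ ?_
      rotate_left 8
      · intro j hj
        interval_cases j <;>
        simp (disch := omega) only [List.cons_append, List.nil_append, List.append_nil, mv0, mvs,
          mvn, mv_nil, true_or, or_true]
      all_goals
        simp only [List.pairwise_cons, List.Pairwise.nil, List.mem_cons, List.not_mem_nil,
          or_false, forall_eq_or_imp, forall_eq, IsEmpty.forall_iff, implies_true, and_true,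
          true_and, and_self, List.Sublist.refl, List.nil_sublist]
      all_goals
        first
        | omega
        | (refine ⟨?_, ?_⟩ <;> first | assumption | omega)
    · refine hit_of [c] [] [] [2] [b]
        ?_ ?_ ?_ ?_ ?_ ?_ ?_ ?_ ?_
      rotate_left 8
      · intro j hj
        interval_cases j <;>
        simp (disch := omega) only [List.cons_append, List.nil_append, List.append_nil, mv0, mvs,
          mvn, mv_nil, true_or, or_true]
      all_goals
        simp only [List.pairwise_cons, List.Pairwise.nil, List.mem_cons, List.not_mem_nil,
          or_false, forall_eq_or_imp, forall_eq, IsEmpty.forall_iff, implies_true, and_true,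
          true_and, and_self, List.Sublist.refl, List.nil_sublist]
      all_goals
        first
        | omega
        | (refine ⟨?_, ?_⟩ <;> first | assumption | omega)
    · refine hit_of [] [] [c] [2] [b]
        ?_ ?_ ?_ ?_ ?_ ?_ ?_ ?_ ?_
      rotate_left 8
      · intro j hj
        interval_cases j <;>
        simp (disch := omega) only [List.cons_append, List.nil_append, List.append_nil, mv0, mvs,
          mvn, mv_nil, true_or, or_true]
      all_goals
        simp only [List.pairwise_cons, List.Pairwise.nil, List.mem_cons, List.not_mem_nil,
          or_false, forall_eq_or_imp, forall_eq, IsEmpty.forall_iff, implies_true, and_true,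
          true_and, and_self, List.Sublist.refl, List.nil_sublist]
      all_goals
        first
        | omega
        | (refine ⟨?_, ?_⟩ <;> first | assumption | omega)
  · refine hit_of [b] [] [] [2] [c]
      ?_ ?_ ?_ ?_ ?_ ?_ ?_ ?_ ?_
    rotate_left 8
    · intro j hj
      interval_cases j <;>
      simp (disch := omega) only [List.cons_append, List.nil_append, List.append_nil, mv0, mvs,
        mvn, mv_nil, true_or, or_true]
    all_goals
      simp only [List.pairwise_cons, List.Pairwise.nil, List.mem_cons, List.not_mem_nil,
        or_false, forall_eq_or_imp, forall_eq, IsEmpty.forall_iff, implies_true, and_true,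
        true_and, and_self, List.Sublist.refl, List.nil_sublist]
    all_goals
      first
      | omega
      | (refine ⟨?_, ?_⟩ <;> first | assumption | omega)
  · refine hit_of [] [] [b] [2] [c]
      ?_ ?_ ?_ ?_ ?_ ?_ ?_ ?_ ?_
    rotate_left 8
    · intro j hj
      interval_cases j <;>
      simp (disch := omega) only [List.cons_append, List.nil_append, List.append_nil, mv0, mvs,
        mvn, mv_nil, true_or, or_true]
    all_goals
      simp only [List.pairwise_cons, List.Pairwise.nil, List.mem_cons, List.not_mem_nil,
        or_false, forall_eq_or_imp, forall_eq, IsEmpty.forall_iff, implies_true, and_true,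
        true_and, and_self, List.Sublist.refl, List.nil_sublist]
    all_goals
      first
      | omega
      | (refine ⟨?_, ?_⟩ <;> first | assumption | omega)

theorem hit2 {b c : ℕ} (hb : 3 ≤ b) (hbc : b < c) (hcn : c < n) : Hit n 2 b c := by
  by_cases g : isC n c = true
  · refine hit_of [c] [1] [] [] [b]
      ?_ ?_ ?_ ?_ ?_ ?_ ?_ ?_ ?_
    rotate_left 8
    · intro j hj
      interval_cases j <;>
      simp (disch := omega) only [List.cons_append, List.nil_append, List.append_nil, mv0, mvs,
        mvn, mv_nil, true_or, or_true]
    all_goals
      simp only [List.pairwise_cons, List.Pairwise.nil, List.mem_cons, List.not_mem_nil,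
        or_false, forall_eq_or_imp, forall_eq, IsEmpty.forall_iff, implies_true, and_true,
        true_and, and_self, List.Sublist.refl, List.nil_sublist]
    all_goals
      first
      | omega
      | (refine ⟨?_, ?_⟩ <;> first | assumption | omega)
  · rcases kind n hb with h | h | h
    · obtain ⟨h1, h2, h3⟩ := isS_succ n h (by omega)
      have hne : c ≠ b + 1 := by
        rintro rfl
        exact g h1
      refine hit_of [b + 1] [1] [] [] [b, b + 1, c]
        ?_ ?_ ?_ ?_ ?_ ?_ ?_ ?_ ?_
      rotate_left 8
      · intro j hj
        interval_cases j <;>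
        simp (disch := omega) only [List.cons_append, List.nil_append, List.append_nil, mv0, mvs,
          mvn, mv_nil, true_or, or_true]
      all_goals
        simp only [List.pairwise_cons, List.Pairwise.nil, List.mem_cons, List.not_mem_nil,
          or_false, forall_eq_or_imp, forall_eq, IsEmpty.forall_iff, implies_true, and_true,
          true_and, and_self, List.Sublist.refl, List.nil_sublist]
      all_goals
        first
        | omega
        | (refine ⟨?_, ?_⟩ <;> first | assumption | omega)
    · refine hit_of [b] [1] [] [] [c]
        ?_ ?_ ?_ ?_ ?_ ?_ ?_ ?_ ?_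
      rotate_left 8
      · intro j hj
        interval_cases j <;>
        simp (disch := omega) only [List.cons_append, List.nil_append, List.append_nil, mv0, mvs,
          mvn, mv_nil, true_or, or_true]
      all_goals
        simp only [List.pairwise_cons, List.Pairwise.nil, List.mem_cons, List.not_mem_nil,
          or_false, forall_eq_or_imp, forall_eq, IsEmpty.forall_iff, implies_true, and_true,
          true_and, and_self, List.Sublist.refl, List.nil_sublist]
      all_goals
        first
        | omega
        | (refine ⟨?_, ?_⟩ <;> first | assumption | omega)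
    · obtain ⟨h1, h2⟩ := isD_pred n h
      refine hit_of [b - 1] [1] [b] [] [b - 1, c]
        ?_ ?_ ?_ ?_ ?_ ?_ ?_ ?_ ?_
      rotate_left 8
      · intro j hj
        interval_cases j <;>
        simp (disch := omega) only [List.cons_append, List.nil_append, List.append_nil, mv0, mvs,
          mvn, mv_nil, true_or, or_true]
      all_goals
        simp only [List.pairwise_cons, List.Pairwise.nil, List.mem_cons, List.not_mem_nil,
          or_false, forall_eq_or_imp, forall_eq, IsEmpty.forall_iff, implies_true, and_true,
          true_and, and_self, List.Sublist.refl, List.nil_sublist]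
      all_goals
        first
        | omega
        | (refine ⟨?_, ?_⟩ <;> first | assumption | omega)

theorem hit0 (hn : 6 ≤ n) {b c : ℕ} (hb : 3 ≤ b) (hbc : b < c) (hcn : c < n) : Hit n 0 b c := by
  rcases kind n (show 3 ≤ c by omega) with g | g | g
  · obtain ⟨h1, h2, h3⟩ := isS_succ n g (by omega)
    have h4 := isS_pred n g (by omega)
    by_cases hbf : b = c - 1
    · refine hit_of [c + 1] [1] [c - 1] [2] [c, c + 1]
        ?_ ?_ ?_ ?_ ?_ ?_ ?_ ?_ ?_
      rotate_left 8
      · subst hbf
        intro j hj
        interval_cases j <;>
        simp (disch := omega) only [List.cons_append, List.nil_append, List.append_nil, mv0, mvs,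
          mvn, mv_nil, true_or, or_true]
      all_goals
        simp only [List.pairwise_cons, List.Pairwise.nil, List.mem_cons, List.not_mem_nil,
          or_false, forall_eq_or_imp, forall_eq, IsEmpty.forall_iff, implies_true, and_true,
          true_and, and_self, List.Sublist.refl, List.nil_sublist]
      all_goals
        first
        | omega
        | (refine ⟨?_, ?_⟩ <;> first | assumption | omega)
    · refine hit_of [c + 1] [1] [c - 1] [2] [b, c - 1, c, c + 1]
        ?_ ?_ ?_ ?_ ?_ ?_ ?_ ?_ ?_
      rotate_left 8
      · intro j hj
        interval_cases j <;>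
        simp (disch := omega) only [List.cons_append, List.nil_append, List.append_nil, mv0, mvs,
          mvn, mv_nil, true_or, or_true]
      all_goals
        simp only [List.pairwise_cons, List.Pairwise.nil, List.mem_cons, List.not_mem_nil,
          or_false, forall_eq_or_imp, forall_eq, IsEmpty.forall_iff, implies_true, and_true,
          true_and, and_self, List.Sublist.refl, List.nil_sublist]
      all_goals
        first
        | omega
        | (refine ⟨?_, ?_⟩ <;> first | assumption | omega)
  · by_cases hc1 : c + 1 < n
    · have h1 := isC_succ n g hc1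
      refine hit_of [c] [1] [c + 1] [2] [b, c + 1]
        ?_ ?_ ?_ ?_ ?_ ?_ ?_ ?_ ?_
      rotate_left 8
      · intro j hj
        interval_cases j <;>
        simp (disch := omega) only [List.cons_append, List.nil_append, List.append_nil, mv0, mvs,
          mvn, mv_nil, true_or, or_true]
      all_goals
        simp only [List.pairwise_cons, List.Pairwise.nil, List.mem_cons, List.not_mem_nil,
          or_false, forall_eq_or_imp, forall_eq, IsEmpty.forall_iff, implies_true, and_true,
          true_and, and_self, List.Sublist.refl, List.nil_sublist]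
      all_goals
        first
        | omega
        | (refine ⟨?_, ?_⟩ <;> first | assumption | omega)
    · have h1 := isC_last n hn g (by omega)
      by_cases hbf : b = c - 1
      · refine hit_of [c] [1] [c - 1] [2] []
          ?_ ?_ ?_ ?_ ?_ ?_ ?_ ?_ ?_
        rotate_left 8
        · subst hbf
          intro j hj
          interval_cases j <;>
          simp (disch := omega) only [List.cons_append, List.nil_append, List.append_nil, mv0, mvs,
            mvn, mv_nil, true_or, or_true]
        all_goals
          simp only [List.pairwise_cons, List.Pairwise.nil, List.mem_cons, List.not_mem_nil,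
            or_false, forall_eq_or_imp, forall_eq, IsEmpty.forall_iff, implies_true, and_true,
            true_and, and_self, List.Sublist.refl, List.nil_sublist]
        all_goals
          first
          | omega
          | (refine ⟨?_, ?_⟩ <;> first | assumption | omega)
      · refine hit_of [c] [1] [c - 1] [2] [b, c - 1]
          ?_ ?_ ?_ ?_ ?_ ?_ ?_ ?_ ?_
        rotate_left 8
        · intro j hj
          interval_cases j <;>
          simp (disch := omega) only [List.cons_append, List.nil_append, List.append_nil, mv0, mvs,
            mvn, mv_nil, true_or, or_true]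
        all_goals
          simp only [List.pairwise_cons, List.Pairwise.nil, List.mem_cons, List.not_mem_nil,
            or_false, forall_eq_or_imp, forall_eq, IsEmpty.forall_iff, implies_true, and_true,
            true_and, and_self, List.Sublist.refl, List.nil_sublist]
        all_goals
          first
          | omega
          | (refine ⟨?_, ?_⟩ <;> first | assumption | omega)
  · obtain ⟨h1, h2⟩ := isD_pred n g
    by_cases hbf : b = c - 1
    · refine hit_of [c - 1] [1] [c] [2] []
        ?_ ?_ ?_ ?_ ?_ ?_ ?_ ?_ ?_
      rotate_left 8
      · subst hbf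
        intro j hj
        interval_cases j <;>
        simp (disch := omega) only [List.cons_append, List.nil_append, List.append_nil, mv0, mvs,
          mvn, mv_nil, true_or, or_true]
      all_goals
        simp only [List.pairwise_cons, List.Pairwise.nil, List.mem_cons, List.not_mem_nil,
          or_false, forall_eq_or_imp, forall_eq, IsEmpty.forall_iff, implies_true, and_true,
          true_and, and_self, List.Sublist.refl, List.nil_sublist]
      all_goals
        first
        | omega
        | (refine ⟨?_, ?_⟩ <;> first | assumption | omega)
    · refine hit_of [c - 1] [1] [c] [2] [b, c - 1]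
        ?_ ?_ ?_ ?_ ?_ ?_ ?_ ?_ ?_
      rotate_left 8
      · intro j hj
        interval_cases j <;>
        simp (disch := omega) only [List.cons_append, List.nil_append, List.append_nil, mv0, mvs,
          mvn, mv_nil, true_or, or_true]
      all_goals
        simp only [List.pairwise_cons, List.Pairwise.nil, List.mem_cons, List.not_mem_nil,
          or_false, forall_eq_or_imp, forall_eq, IsEmpty.forall_iff, implies_true, and_true,
          true_and, and_self, List.Sublist.refl, List.nil_sublist]
      all_goals
        first
        | omega
        | (refine ⟨?_, ?_⟩ <;> first | assumption | omega)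

theorem hit3 {a b c : ℕ} (ha : 3 ≤ a) (hab : a < b) (hbc : b < c) (hcn : c < n) :
    Hit n a b c := by
  rcases kind n (show 3 ≤ b by omega) with g | g | g
  · obtain ⟨h1, h2, h3⟩ := isS_succ n g (by omega)
    have h4 := isS_pred n g (by omega)
    by_cases haf : a = b - 1
    · subst haf
      by_cases hce : c = b + 1
      · subst hce
        refine hit_of [b + 1] [1] [b - 1] [2] [b]
          ?_ ?_ ?_ ?_ ?_ ?_ ?_ ?_ ?_
        rotate_left 8
        · intro j hj
          interval_cases j <;>
          simp (disch := omega) only [List.cons_append, List.nil_append, List.append_nil, mv0, mvs,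
            mvn, mv_nil, true_or, or_true]
        all_goals
          simp only [List.pairwise_cons, List.Pairwise.nil, List.mem_cons, List.not_mem_nil,
            or_false, forall_eq_or_imp, forall_eq, IsEmpty.forall_iff, implies_true, and_true,
            true_and, and_self, List.Sublist.refl, List.nil_sublist]
        all_goals
          first
          | omega
          | (refine ⟨?_, ?_⟩ <;> first | assumption | omega)
      · refine hit_of [b + 1] [1] [b - 1] [2] [b, b + 1, c]
          ?_ ?_ ?_ ?_ ?_ ?_ ?_ ?_ ?_
        rotate_left 8
        · intro j hj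
          interval_cases j <;>
          simp (disch := omega) only [List.cons_append, List.nil_append, List.append_nil, mv0, mvs,
            mvn, mv_nil, true_or, or_true]
        all_goals
          simp only [List.pairwise_cons, List.Pairwise.nil, List.mem_cons, List.not_mem_nil,
            or_false, forall_eq_or_imp, forall_eq, IsEmpty.forall_iff, implies_true, and_true,
            true_and, and_self, List.Sublist.refl, List.nil_sublist]
        all_goals
          first
          | omega
          | (refine ⟨?_, ?_⟩ <;> first | assumption | omega)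
    · by_cases hce : c = b + 1
      · subst hce
        refine hit_of [b + 1] [1] [b - 1] [2] [a, b - 1, b]
          ?_ ?_ ?_ ?_ ?_ ?_ ?_ ?_ ?_
        rotate_left 8
        · intro j hj
          interval_cases j <;>
          simp (disch := omega) only [List.cons_append, List.nil_append, List.append_nil, mv0, mvs,
            mvn, mv_nil, true_or, or_true]
        all_goals
          simp only [List.pairwise_cons, List.Pairwise.nil, List.mem_cons, List.not_mem_nil,
            or_false, forall_eq_or_imp, forall_eq, IsEmpty.forall_iff, implies_true, and_true,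
            true_and, and_self, List.Sublist.refl, List.nil_sublist]
        all_goals
          first
          | omega
          | (refine ⟨?_, ?_⟩ <;> first | assumption | omega)
      · refine hit_of [b + 1] [1] [b - 1] [2] [a, b - 1, b, b + 1, c]
          ?_ ?_ ?_ ?_ ?_ ?_ ?_ ?_ ?_
        rotate_left 8
        · intro j hj
          interval_cases j <;>
          simp (disch := omega) only [List.cons_append, List.nil_append, List.append_nil, mv0, mvs,
            mvn, mv_nil, true_or, or_true]
        all_goals
          simp only [List.pairwise_cons, List.Pairwise.nil, List.mem_cons, List.not_mem_nil,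
            or_false, forall_eq_or_imp, forall_eq, IsEmpty.forall_iff, implies_true, and_true,
            true_and, and_self, List.Sublist.refl, List.nil_sublist]
        all_goals
          first
          | omega
          | (refine ⟨?_, ?_⟩ <;> first | assumption | omega)
  · have h1 := isC_succ n g (by omega)
    by_cases hce : c = b + 1
    · subst hce
      refine hit_of [b] [1] [b + 1] [2] [a]
        ?_ ?_ ?_ ?_ ?_ ?_ ?_ ?_ ?_
      rotate_left 8
      · intro j hj
        interval_cases j <;>
        simp (disch := omega) only [List.cons_append, List.nil_append, List.append_nil, mv0, mvs,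
          mvn, mv_nil, true_or, or_true]
      all_goals
        simp only [List.pairwise_cons, List.Pairwise.nil, List.mem_cons, List.not_mem_nil,
          or_false, forall_eq_or_imp, forall_eq, IsEmpty.forall_iff, implies_true, and_true,
          true_and, and_self, List.Sublist.refl, List.nil_sublist]
      all_goals
        first
        | omega
        | (refine ⟨?_, ?_⟩ <;> first | assumption | omega)
    · refine hit_of [b] [1] [b + 1] [2] [a, b + 1, c]
        ?_ ?_ ?_ ?_ ?_ ?_ ?_ ?_ ?_
      rotate_left 8
      · intro j hj
        interval_cases j <;>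
        simp (disch := omega) only [List.cons_append, List.nil_append, List.append_nil, mv0, mvs,
          mvn, mv_nil, true_or, or_true]
      all_goals
        simp only [List.pairwise_cons, List.Pairwise.nil, List.mem_cons, List.not_mem_nil,
          or_false, forall_eq_or_imp, forall_eq, IsEmpty.forall_iff, implies_true, and_true,
          true_and, and_self, List.Sublist.refl, List.nil_sublist]
      all_goals
        first
        | omega
        | (refine ⟨?_, ?_⟩ <;> first | assumption | omega)
  · obtain ⟨h1, h2⟩ := isD_pred n g
    by_cases haf : a = b - 1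
    · subst haf
      refine hit_of [b - 1] [1] [b] [2] [c]
        ?_ ?_ ?_ ?_ ?_ ?_ ?_ ?_ ?_
      rotate_left 8
      · intro j hj
        interval_cases j <;>
        simp (disch := omega) only [List.cons_append, List.nil_append, List.append_nil, mv0, mvs,
          mvn, mv_nil, true_or, or_true]
      all_goals
        simp only [List.pairwise_cons, List.Pairwise.nil, List.mem_cons, List.not_mem_nil,
          or_false, forall_eq_or_imp, forall_eq, IsEmpty.forall_iff, implies_true, and_true,
          true_and, and_self, List.Sublist.refl, List.nil_sublist]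
      all_goals
        first
        | omega
        | (refine ⟨?_, ?_⟩ <;> first | assumption | omega)
    · refine hit_of [b - 1] [1] [b] [2] [a, b - 1, c]
        ?_ ?_ ?_ ?_ ?_ ?_ ?_ ?_ ?_
      rotate_left 8
      · intro j hj
        interval_cases j <;>
        simp (disch := omega) only [List.cons_append, List.nil_append, List.append_nil, mv0, mvs,
          mvn, mv_nil, true_or, or_true]
      all_goals
        simp only [List.pairwise_cons, List.Pairwise.nil, List.mem_cons, List.not_mem_nil,
          or_false, forall_eq_or_imp, forall_eq, IsEmpty.forall_iff, implies_true, and_true,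
          true_and, and_self, List.Sublist.refl, List.nil_sublist]
      all_goals
        first
        | omega
        | (refine ⟨?_, ?_⟩ <;> first | assumption | omega)

theorem hit_all (hn : 6 ≤ n) {a b c : ℕ} (hab : a < b) (hbc : b < c) (hcn : c < n) :
    Hit n a b c := by
  by_cases ha : 3 ≤ a
  · exact hit3 ha hab hbc hcn
  · by_cases hb : 3 ≤ b
    · have : a = 0 ∨ a = 1 ∨ a = 2 := by omega
      rcases this with rfl | rfl | rfl
      · exact hit0 hn hb hbc hcn
      · exact hit1 hb hbc hcn
      · exact hit2 hb hbc hcn
    · by_cases hc : 3 ≤ c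
      · have : (a = 0 ∧ b = 1) ∨ (a = 0 ∧ b = 2) ∨ (a = 1 ∧ b = 2) := by omega
        rcases this with ⟨rfl, rfl⟩ | ⟨rfl, rfl⟩ | ⟨rfl, rfl⟩
        · exact hit01 hc hcn
        · exact hit02 hc hcn
        · exact hit12 hc hcn
      · have : a = 0 ∧ b = 1 ∧ c = 2 := by omega
        obtain ⟨rfl, rfl, rfl⟩ := this
        exact hit012

/-! ### The length -/

theorem len_filter (p : ℕ → Bool) :
    ((List.range n).filter p).length = ((range n).filter (fun x => p x = true)).card := by
  rw [← List.toFinset_card_of_nodup (List.nodup_range.filter p)]
  congr 1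
  ext x
  simp

theorem len_bL : (bL n).length = n - 3 := by
  unfold bL
  rw [len_filter]
  have : (range n).filter (fun x => decide (3 ≤ x) = true) = Ico 3 n := by
    ext x
    simp only [mem_filter, mem_range, mem_Ico, decide_eq_true_eq]
    omega
  rw [this, Nat.card_Ico]

theorem card_slots : (n - 3) / 3 ≤ ((range n).filter (fun x => isS n x = true)).card := by
  set f : ℕ → ℕ := fun i => if n % 3 = 2 then 3 * i + 5 else 3 * i + 3 with hf
  have hinj : Function.Injective f := by
    intro i j hij
    simp only [hf] at hij
    split_ifs at hij <;> omega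
  have hsub : (range ((n - 3) / 3)).image f ⊆ (range n).filter (fun x => isS n x = true) := by
    intro x hx
    obtain ⟨i, hi, rfl⟩ := mem_image.1 hx
    rw [mem_range] at hi
    rw [mem_filter, mem_range]
    simp only [hf]
    unfold isS
    split_ifs <;> simp only [Bool.and_eq_true, decide_eq_true_eq] <;> omega
  have := card_le_card hsub
  rwa [card_image_of_injective _ hinj, card_range] at this

theorem len_blocks : (bC n).length + (bD n).length + (n - 3) / 3 ≤ n - 3 := by
  unfold bC bD
  rw [len_filter, len_filter]
  have h1 := card_slots (n := n)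
  have hCD : Disjoint ((range n).filter (fun x => isC n x = true))
      ((range n).filter (fun x => isD n x = true)) := by
    rw [disjoint_left]
    intro x hx hx'
    have g1 := (mem_filter.1 hx).2
    have g2 := (mem_filter.1 hx').2
    unfold isC at g1
    unfold isD at g2
    split_ifs at g1 g2 <;>
      simp only [Bool.and_eq_true, decide_eq_true_eq, Bool.or_eq_true] at g1 g2 <;> omega
  have hCDS : Disjoint (((range n).filter (fun x => isC n x = true)) ∪
      ((range n).filter (fun x => isD n x = true)))
      ((range n).filter (fun x => isS n x = true)) := by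
    rw [disjoint_left]
    intro x hx hx'
    have g3 := (mem_filter.1 hx').2
    rcases mem_union.1 hx with hx | hx
    · exact isS_notC n g3 (mem_filter.1 hx).2
    · have g2 := (mem_filter.1 hx).2
      unfold isS at g3
      unfold isD at g2
      split_ifs at g2 g3 <;>
        simp only [Bool.and_eq_true, decide_eq_true_eq] at g2 g3 <;> omega
  have hsub : ((((range n).filter (fun x => isC n x = true)) ∪
      ((range n).filter (fun x => isD n x = true))) ∪
      ((range n).filter (fun x => isS n x = true))) ⊆ Ico 3 n := by
    intro x hx
    rw [mem_Ico]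
    rcases mem_union.1 hx with hx | hx
    · rcases mem_union.1 hx with hx | hx
      · obtain ⟨h2, h3⟩ := mem_filter.1 hx
        exact ⟨isC_ge n h3, mem_range.1 h2⟩
      · obtain ⟨h2, h3⟩ := mem_filter.1 hx
        have := isD_pred n h3
        exact ⟨by omega, mem_range.1 h2⟩
    · obtain ⟨h2, h3⟩ := mem_filter.1 hx
      unfold isS at h3
      rw [Bool.and_eq_true, decide_eq_true_eq] at h3
      exact ⟨h3.1, mem_range.1 h2⟩
  have h2 := card_le_card hsub
  rw [card_union_of_disjoint hCDS, card_union_of_disjoint hCD, Nat.card_Ico] at h2
  omega

/-- The word. -/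
def word (n : ℕ) : List ℕ := [1, 2, 1] ++ wd n

theorem len_word (hn : 6 ≤ n) : (word n).length ≤ 2 * n - n / 3 := by
  have h1 := len_blocks (n := n)
  have h2 := len_bL (n := n)
  have h3 : (word n).length = 3 + ((bC n).length + (1 + ((bD n).length + (1 + (bL n).length)))) := by
    unfold word wd
    simp only [List.length_append, List.length_cons, List.length_nil]
  rw [h3, h2]
  omega

theorem mem_word (hn : 6 ≤ n) {a : ℕ} (ha : a ∈ word n) : 1 ≤ a ∧ a < n := by
  unfold word wd bC bD bL at ha
  simp only [List.mem_append, List.mem_cons, List.not_mem_nil, or_false, List.mem_filter,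
    List.mem_range, decide_eq_true_eq] at ha
  rcases ha with (rfl | rfl | rfl) | ⟨h1, h2⟩ | rfl | ⟨h1, h2⟩ | rfl | ⟨h1, h2⟩
  · omega
  · omega
  · omega
  · have := isC_ge n h2
    omega
  · omega
  · have := isD_pred n h2
    omega
  · omega
  · omega

/-! ### The labels -/

theorem mv_inj (M : List ℕ) (hM : ∀ a ∈ M, a ≠ 0) : Function.Injective (mv M) := by
  induction M with
  | nil => exact fun _ _ h => h
  | cons a M ih =>
    have ha := hM a List.mem_cons_self
    intro x y hxy
    rw [mv_cons, mv_cons] at hxy
    have := ih (fun b hb => hM b (List.mem_cons_of_mem _ hb)) hxy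
    split_ifs at this <;> omega

theorem perm_prefix : ∀ τ : Equiv.Perm (Fin 3), ∃ P ∈ List.sublists [1, 2, 1],
    ∀ j : Fin 3, mv P j.val = (τ j).val := by
  decide

theorem reach_word (hn : 6 ≤ n) (x : Fin 3 → ℕ) (hx : Function.Injective x)
    (hxn : ∀ j, x j < n) : ∃ M : List ℕ, M.Sublist (word n) ∧ ∀ j : Fin 3, mv M j.val = x j := by
  -- sort the targets
  have hmono : StrictMono (x ∘ Tuple.sort x) :=
    (Tuple.monotone_sort x).strictMono_of_injective (hx.comp (Tuple.sort x).injective)
  set σ := Tuple.sort x with hσ
  have h01 : x (σ 0) < x (σ 1) := hmono (by decide : (0 : Fin 3) < 1)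
  have h12 : x (σ 1) < x (σ 2) := hmono (by decide : (1 : Fin 3) < 2)
  obtain ⟨M, hM, hM'⟩ := hit_all hn h01 h12 (hxn _)
  have hM0 : ∀ a ∈ M, a ≠ 0 := by
    intro a ha
    have : a ∈ word n := by
      unfold word
      exact List.mem_append_right _ (hM.subset ha)
    have := (mem_word hn this).1
    omega
  have hg : ∀ j : Fin 3, ∃ i : Fin 3, mv M j.val = x i := by
    intro j
    rcases hM' j.val j.isLt with h | h | h
    exacts [⟨_, h⟩, ⟨_, h⟩, ⟨_, h⟩]
  choose g hg using hg
  have hginj : Function.Injective g := by
    intro i j hij
    have h1 : mv M i.val = mv M j.val := by rw [hg, hg, hij]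
    exact Fin.ext (mv_inj M hM0 h1)
  let e : Equiv.Perm (Fin 3) := Equiv.ofBijective g (Finite.injective_iff_bijective.1 hginj)
  obtain ⟨P, hP, hP'⟩ := perm_prefix e.symm
  rw [List.mem_sublists] at hP
  refine ⟨P ++ M, ?_, fun j => ?_⟩
  · unfold word
    exact hP.append hM
  · rw [mv_append, hP', hg]
    congr 1
    exact e.apply_symm_apply j

/-! ### The network on `Fin n` -/

/-- The network. -/
def net (n : ℕ) (hn : 0 < n) : List (Fin n × Fin n) :=
  (word n).map (fun a => (⟨0, hn⟩, ⟨a % n, Nat.mod_lt _ hn⟩))

theorem move_net (hn : 0 < n) (M : List ℕ) (hM : ∀ a ∈ M, 1 ≤ a ∧ a < n) (x : Fin n) :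
    (move (M.map (fun a => ((⟨0, hn⟩ : Fin n), (⟨a % n, Nat.mod_lt _ hn⟩ : Fin n)))) x).val =
      mv M x.val := by
  induction M generalizing x with
  | nil => rfl
  | cons a M ih =>
    obtain ⟨h1, h2⟩ := hM a List.mem_cons_self
    rw [List.map_cons, move_cons, ih (fun b hb => hM b (List.mem_cons_of_mem _ hb)), mv_cons]
    congr 1
    simp only
    rw [Equiv.swap_apply_def]
    by_cases hx : x.val = 0
    · rw [if_pos (Fin.ext hx), if_pos hx]
      exact Nat.mod_eq_of_lt h2
    · rw [if_neg (fun h => hx (by rw [h])), if_neg hx]
      by_cases hx' : x.val = a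
      · rw [if_pos, if_pos hx']
        apply Fin.ext
        simp only
        rw [Nat.mod_eq_of_lt h2]
        exact hx'
      · rw [if_neg, if_neg hx']
        intro h
        apply hx'
        rw [h]
        exact Nat.mod_eq_of_lt h2

/-- **The construction.** -/
theorem exists_star3 {n : ℕ} (hn : 6 ≤ n) (h : 3 ≤ n) :
    ∃ L : List (Fin n × Fin n), IsNet h L ∧ (∀ T ∈ L, T.1.val = 0) ∧
      L.length ≤ 2 * n - n / 3 := by
  have hn0 : 0 < n := by omega
  refine ⟨net n hn0, ⟨?_, ?_⟩, ?_, ?_⟩
  · intro T hT
    obtain ⟨a, ha, rfl⟩ := List.mem_map.1 hT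
    obtain ⟨h1, h2⟩ := mem_word hn ha
    intro h3
    have h4 := congrArg Fin.val h3
    simp only at h4
    rw [Nat.mod_eq_of_lt h2] at h4
    omega
  · intro x hx
    obtain ⟨M, hM, hM'⟩ := reach_word hn (fun j => (x j).val)
      (fun i j hij => hx (Fin.ext hij)) (fun j => (x j).isLt)
    refine ⟨_, hM.map (fun a => ((⟨0, hn0⟩ : Fin n), (⟨a % n, Nat.mod_lt _ hn0⟩ : Fin n))),
      fun j => Fin.ext ?_⟩
    rw [move_net hn0 M (fun a ha => mem_word hn (hM.subset ha))]
    exact hM' j
  · intro T hT
    obtain ⟨a, ha, rfl⟩ := List.mem_map.1 hT
    rfl
  · unfold net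
    rw [List.length_map]
    exact len_word hn

end ST

end ReachNet
end

section

/-!
# Star networks with three counters: the search is run by the kernel
-/

set_option autoImplicit false
set_option maxRecDepth 100000

namespace ReachNet.Ex

theorem search3 : search 4 3 20 start = true := by decide +kernel

theorem search4 : search 8 4 20 start = true := by decide +kernel

theorem search5 : search 9 5 20 start = true := by decide +kernel

theorem search6 : search 10 6 20 start = true := by decide +kernel

end ReachNet.Ex
end
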